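import Mathlib

/-!
# Bounded functionals on the even class functions of finite level

A linear functional on the even class functions of finite level of a compact group which is bounded
by `c` times the `L¹`-norm is the integral against one measurable even class function `θ`, `|θ| ≤ c`.
-/

set_option autoImplicit false

namespace Pool.Agent.TH375.ED

open MeasureTheory Filter Topology
open scoped RealInnerProductSpace

section
variable {G : Type} [Group G] [TopologicalSpace G]

/-- even class functions of finite level -/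
structure EC (f : G → ℝ) : Prop where
  lev : ∃ U : Subgroup G, IsOpen (U : Set G) ∧ ∀ g, ∀ u ∈ U, f (g * u) = f g
  cls : ∀ g h, f (h * g * h⁻¹) = f g
  even : ∀ g, f g⁻¹ = f g

theorem EC.comp {f : G → ℝ} (hf : EC f) (φ : ℝ → ℝ) : EC fun x => φ (f x) := by
  obtain ⟨U, hU, h⟩ := hf.lev
  exact ⟨⟨U, hU, fun g u hu => by rw [h g u hu]⟩, fun g h => by rw [hf.cls],
    fun g => by rw [hf.even]⟩

theorem EC.comp₂ {f g : G → ℝ} (hf : EC f) (hg : EC g) (φ : ℝ → ℝ → ℝ) :
    EC fun x => φ (f x) (g x) := by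
  obtain ⟨U, hU, h⟩ := hf.lev
  obtain ⟨U', hU', h'⟩ := hg.lev
  refine ⟨⟨U ⊓ U', ?_, fun x u hu => by rw [h x u hu.1, h' x u hu.2]⟩,
    fun x y => by rw [hf.cls, hg.cls], fun x => by rw [hf.even, hg.even]⟩
  rw [Subgroup.coe_inf]
  exact hU.inter hU'

theorem EC.const (c : ℝ) : EC fun _ : G => c :=
  ⟨⟨⊤, isOpen_univ, fun _ _ _ => rfl⟩, fun _ _ => rfl, fun _ => rfl⟩

variable [IsTopologicalGroup G]

theorem EC.cont {f : G → ℝ} (hf : EC f) : Continuous f := by
  obtain ⟨U, hU, h⟩ := hf.lev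
  refine IsLocallyConstant.continuous ?_
  rw [IsLocallyConstant.iff_exists_open]
  intro x
  refine ⟨(fun y => x⁻¹ * y) ⁻¹' (U : Set G), hU.preimage (continuous_const_mul _), ?_, ?_⟩
  · simp only [Set.mem_preimage, inv_mul_cancel]
    exact U.one_mem
  · intro y hy
    have h1 := h x (x⁻¹ * y) hy
    rw [mul_inv_cancel_left] at h1
    exact h1

variable [CompactSpace G]

theorem EC.bdd {f : G → ℝ} (hf : EC f) : ∃ C : ℝ, ∀ x, |f x| ≤ C := by
  obtain ⟨C, hC⟩ := isCompact_univ.exists_bound_of_continuousOn hf.cont.continuousOn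
  exact ⟨C, fun x => hC x (Set.mem_univ x)⟩

variable [MeasurableSpace G] [BorelSpace G] (μ : Measure G) [IsProbabilityMeasure μ]

theorem EC.memLp {f : G → ℝ} (hf : EC f) : MemLp f 2 μ := by
  obtain ⟨C, hC⟩ := hf.bdd
  exact MemLp.of_bound hf.cont.aestronglyMeasurable C (ae_of_all _ hC)

theorem EC.integrable {f : G → ℝ} (hf : EC f) : Integrable f μ := by
  obtain ⟨C, hC⟩ := hf.bdd
  exact Integrable.of_bound hf.cont.aestronglyMeasurable C (ae_of_all _ hC)

variable (G) in
/-- the space of the even class functions of finite level -/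
def V : Submodule ℝ (G → ℝ) where
  carrier := {f | EC f}
  add_mem' hf hg := hf.comp₂ hg fun a b => a + b
  zero_mem' := EC.const 0
  smul_mem' a _ hf := hf.comp fun b => a * b

/-- the map to `L²` -/
noncomputable def TL : V G →ₗ[ℝ] Lp ℝ 2 μ where
  toFun f := (EC.memLp μ f.2).toLp f.1
  map_add' _ _ := MemLp.toLp_add _ _
  map_smul' _ _ := MemLp.toLp_const_smul _ _

theorem TL_ae (f : V G) : (TL μ f : G → ℝ) =ᵐ[μ] f.1 := (EC.memLp μ f.2).coeFn_toLp

theorem inner_TL (y : Lp ℝ 2 μ) (f : V G) : ⟪y, TL μ f⟫ = ∫ x, y x * f.1 x ∂μ := by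
  rw [L2.inner_def]
  refine integral_congr_ae ?_
  filter_upwards [TL_ae μ f] with x hx
  rw [hx]
  change f.1 x * (y : G → ℝ) x = _
  rw [mul_comm]

theorem norm_TL_sq (f : V G) : ‖TL μ f‖ ^ 2 = ∫ x, f.1 x ^ 2 ∂μ := by
  rw [← real_inner_self_eq_norm_sq, inner_TL]
  refine integral_congr_ae ?_
  filter_upwards [TL_ae μ f] with x hx
  rw [hx, sq]

theorem L1_le (f : V G) : ∫ x, |f.1 x| ∂μ ≤ ‖TL μ f‖ := by
  set m : ℝ := ∫ x, |f.1 x| ∂μ with hm
  have hf : EC f.1 := f.2
  have h1 : 0 ≤ ∫ x, (|f.1 x| - m) ^ 2 ∂μ := integral_nonneg fun x => sq_nonneg _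
  have h2 : ∫ x, (|f.1 x| - m) ^ 2 ∂μ = ∫ x, f.1 x ^ 2 ∂μ - m ^ 2 := by
    have e : (fun x => (|f.1 x| - m) ^ 2) = fun x => (f.1 x ^ 2 - 2 * m * |f.1 x|) + m ^ 2 := by
      funext x
      have := sq_abs (f.1 x)
      nlinarith
    rw [e, integral_add, integral_sub, integral_const_mul, ← hm, integral_const]
    · simp
      ring
    · exact (hf.comp fun a => a ^ 2).integrable μ
    · exact (hf.comp fun a => 2 * m * |a|).integrable μ
    · exact ((hf.comp fun a => a ^ 2 - 2 * m * |a|)).integrable μ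
    · exact integrable_const _
  have h3 : m ^ 2 ≤ ‖TL μ f‖ ^ 2 := by
    rw [norm_TL_sq]
    linarith
  exact le_of_sq_le_sq h3 (norm_nonneg _)

end

end Pool.Agent.TH375.ED
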