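import Pool.Agent.TH375.ED.SubN
import Pool.Agent.W353.L1.Pairs

/-! Bessel's inequality for the densities at several heights. -/

set_option autoImplicit false

namespace Pool.Agent.TH375.ED

open MeasureTheory Filter Topology NumberField IsDedekindDomain Complex ComplexConjugate
  Pool.Agent.W401.Cheb Pool.Agent.W540.BE Pool.Agent.W353.L1 Pool.Agent.W353.AT
  Pool.Agent.W353.SP
open Pool.Agent.W353.NF (act fixn fixn_conj fixn_inv fixn_mul_ker ker_act_open act_trans cz abs_cz)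
open Pool.Agent.H341R2 (lam lam_tendsto)

/-- the weight of a height -/
noncomputable def wt (τ : ℝ) : ℝ := if τ = 0 then 1 else 2

theorem wt_pos (τ : ℝ) : 0 < wt τ := by
  unfold wt
  split_ifs <;> norm_num

section
variable {K : Type} [Field K] [NumberField K]

/-- an even class function as a hermitian class function of a quotient -/
noncomputable def cfOf {U : Subgroup (GK K)} [U.Normal] {f : GK K → ℝ} (hf : EC f)
    (hl : ∀ g, ∀ u ∈ U, f (g * u) = f g) : CF U where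
  f q := ((f q.out : ℝ) : ℂ)
  cls a x := by
    have hψf : ∀ g : GK K, f (QuotientGroup.mk g : GK K ⧸ U).out = f g := by
      intro g
      obtain ⟨u, hu⟩ := QuotientGroup.mk_out_eq_mul U g
      rw [hu, hl g u u.2]
    obtain ⟨a, rfl⟩ := QuotientGroup.mk_surjective a
    obtain ⟨x, rfl⟩ := QuotientGroup.mk_surjective x
    rw [← QuotientGroup.mk_mul, ← QuotientGroup.mk_inv, ← QuotientGroup.mk_mul, hψf, hψf, hf.cls]
  herm q := by
    have hψf : ∀ g : GK K, f (QuotientGroup.mk g : GK K ⧸ U).out = f g := by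
      intro g
      obtain ⟨u, hu⟩ := QuotientGroup.mk_out_eq_mul U g
      rw [hu, hl g u u.2]
    obtain ⟨g, rfl⟩ := QuotientGroup.mk_surjective q
    rw [← QuotientGroup.mk_inv, hψf, hψf, hf.even, Complex.conj_ofReal]

theorem cfOf_mk {U : Subgroup (GK K)} [U.Normal] {f : GK K → ℝ} (hf : EC f)
    (hl : ∀ g, ∀ u ∈ U, f (g * u) = f g) (g : GK K) :
    (cfOf hf hl).f (QuotientGroup.mk g) = ((f g : ℝ) : ℂ) := by
  obtain ⟨u, hu⟩ := QuotientGroup.mk_out_eq_mul U g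
  change ((f (QuotientGroup.mk g : GK K ⧸ U).out : ℝ) : ℂ) = _
  rw [hu, hl g u u.2]

theorem cfOf_R {U : Subgroup (GK K)} [U.Normal] {f : GK K → ℝ} (hf : EC f)
    (hl : ∀ g, ∀ u ∈ U, f (g * u) = f g) (τ : ℝ) (σ : HeightOneSpectrum (𝓞 K) → GK K)
    (v : HeightOneSpectrum (𝓞 K)) : (cfOf hf hl).R τ σ v = cz τ v * f (σ v) := by
  unfold CF.R
  rw [cfOf_mk, Complex.re_ofReal_mul, mul_comm]
  rfl

/-- a common normal open subgroup -/
theorem common_level {f g : GK K → ℝ} (hf : EC f) (hg : EC g) :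
    ∃ U : Subgroup (GK K), U.Normal ∧ IsOpen (U : Set (GK K)) ∧
      (∀ x, ∀ u ∈ U, f (x * u) = f x) ∧ ∀ x, ∀ u ∈ U, g (x * u) = g x := by
  obtain ⟨U₁, hU₁, h₁⟩ := hf.lev
  obtain ⟨U₂, hU₂, h₂⟩ := hg.lev
  have hI : IsOpen ((U₁ ⊓ U₂ : Subgroup (GK K)) : Set (GK K)) := by
    rw [Subgroup.coe_inf]
    exact hU₁.inter hU₂
  obtain ⟨U, hUn, hU, hle⟩ := exists_normal hI
  exact ⟨U, hUn, hU, fun x u hu => h₁ x u (hle hu).1, fun x u hu => h₂ x u (hle hu).2⟩

/-- different heights are orthogonal -/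
theorem mean_ne {f g : GK K → ℝ} (hf : EC f) (hg : EC g) {s t : ℝ} (hs : 0 ≤ s) (ht : 0 ≤ t)
    (hst : s ≠ t) (σ : HeightOneSpectrum (𝓞 K) → GK K) (hσ : ∀ v, IsFrob v (σ v)) :
    Has (fun v => (cz s v * f (σ v)) * (cz t v * g (σ v))) 0 := by
  obtain ⟨U, hUn, hU, h₁, h₂⟩ := common_level hf hg
  have hfin : Finite (GK K ⧸ U) := Subgroup.quotient_finite_of_isOpen U hU
  have h1 : s + t ≠ 0 := by
    intro h
    have h2 : s = 0 := by linarith
    have h3 : t = 0 := by linarith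
    exact hst (h2.trans h3.symm)
  refine ((cfOf hf h₁).has_mul_ne hU σ hσ (cfOf hg h₂) h1 (sub_ne_zero.2 hst)).congr
    (fun v => ?_) rfl
  rw [cfOf_R, cfOf_R]

variable [MeasurableSpace (GK K)] [BorelSpace (GK K)] (μ : Measure (GK K)) [μ.IsHaarMeasure]
  [IsProbabilityMeasure μ]

/-- the mean square at one height -/
theorem mean_self {f : GK K → ℝ} (hf : EC f) (s : ℝ) (σ : HeightOneSpectrum (𝓞 K) → GK K)
    (hσ : ∀ v, IsFrob v (σ v)) :
    Has (fun v => (cz s v * f (σ v)) * (cz s v * f (σ v))) ((wt s)⁻¹ * ∫ g, f g ^ 2 ∂μ) := by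
  classical
  obtain ⟨U, hUn, hU, h₁, -⟩ := common_level hf hf
  have hfin : Finite (GK K ⧸ U) := Subgroup.quotient_finite_of_isOpen U hU
  let _ : Fintype (GK K ⧸ U) := Fintype.ofFinite _
  have hsq : (cfOf hf h₁).sq = ∫ g, f g ^ 2 ∂μ := by
    have h2 := integral_level μ hU fun q => ‖(cfOf hf h₁).f q‖ ^ 2
    have h3 : ∀ x : GK K, ‖(cfOf hf h₁).f (QuotientGroup.mk x)‖ ^ 2 = f x ^ 2 := by
      intro x
      rw [cfOf_mk, Complex.norm_real, Real.norm_eq_abs, sq_abs]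
    simp only [h3] at h2
    exact h2.symm
  by_cases hs : s = 0
  · subst hs
    have h4 := (cfOf hf h₁).has_sq hU σ hσ
    refine h4.congr (fun v => ?_) ?_
    · unfold CF.R CF.mul CF.star
      simp only
      have h0 : zz (F := K) 0 v = 1 := by
        unfold zz
        rw [Complex.ofReal_zero, zero_mul, neg_zero, Complex.cpow_zero]
      unfold cz
      rw [cfOf_mk, Complex.conj_ofReal, h0, mul_one, ← Complex.ofReal_mul, Complex.ofReal_re,
        Complex.one_re, one_mul]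
    · unfold wt
      rw [if_pos rfl, inv_one, one_mul, hsq]
  · refine ((cfOf hf h₁).has_mul_self hU σ hσ hs).congr (fun v => ?_) ?_
    · rw [cfOf_R]
    · unfold wt
      rw [if_neg hs, hsq]
      norm_num

/-- **Bessel's inequality for functions of finite level.** -/
theorem bessel_fin {T : HeightOneSpectrum (𝓞 K) → ℝ} {N : ℝ} (hT : ∀ v, |T v| ≤ N)
    {τ : ℕ → ℝ} (hτ0 : ∀ n, 0 ≤ τ n) (hτ : Function.Injective τ)
    (σ : HeightOneSpectrum (𝓞 K) → GK K) (hσ : ∀ v, IsFrob v (σ v)) {z : ℕ → ℝ}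
    (hz : Tendsto z atTop (𝓝[>] 0)) (S : Finset ℕ) {f : ℕ → GK K → ℝ} (hf : ∀ n, EC (f n))
    {a : ℕ → ℝ}
    (ha : ∀ n ∈ S, Hs atTop (fun j => ED K (z j)) (fun v => T v * cz (τ n) v * f n (σ v)) (a n)) :
    ∑ n ∈ S, wt (τ n) * (2 * a n - ∫ g, f n g ^ 2 ∂μ) ≤ N ^ 2 := by
  classical
  have h' : Mn atTop fun j => ED K (z j) := (mnD K).comp hz
  have hHas : ∀ {φ : HeightOneSpectrum (𝓞 K) → ℝ} {m : ℝ}, Has φ m →
      Hs atTop (fun j => ED K (z j)) φ m := fun h => ⟨h.1, h.2.comp hz⟩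
  have hA : Hs atTop (fun j => ED K (z j))
      (fun v => ∑ n ∈ S, (2 * wt (τ n)) * (T v * cz (τ n) v * f n (σ v)))
      (∑ n ∈ S, (2 * wt (τ n)) * a n) := h'.hsSum S fun n hn => h'.hsMul (ha n hn) _
  have hB : Hs atTop (fun j => ED K (z j))
      (fun v => N ^ 2 * 1 + ∑ n ∈ S, ∑ m ∈ S, (wt (τ n) * wt (τ m)) *
        ((cz (τ n) v * f n (σ v)) * (cz (τ m) v * f m (σ v))))
      (N ^ 2 * 1 + ∑ n ∈ S, ∑ m ∈ S, (wt (τ n) * wt (τ m)) *
        (if n = m then (wt (τ n))⁻¹ * ∫ g, f n g ^ 2 ∂μ else 0)) := by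
    refine h'.hsAdd (h'.hsMul h'.hsOne _) (h'.hsSum S fun n _ => h'.hsSum S fun m _ =>
      h'.hsMul ?_ _)
    by_cases hnm : n = m
    · subst hnm
      rw [if_pos rfl]
      exact hHas (mean_self μ (hf n) (τ n) σ hσ)
    · rw [if_neg hnm]
      exact hHas (mean_ne (hf n) (hf m) (hτ0 n) (hτ0 m) (fun h => hnm (hτ h)) σ hσ)
  have hle := Hs.le h' hA hB fun v => by
    set G : ℝ := ∑ n ∈ S, wt (τ n) * (cz (τ n) v * f n (σ v)) with hG
    have e1 : ∑ n ∈ S, (2 * wt (τ n)) * (T v * cz (τ n) v * f n (σ v)) = 2 * T v * G := by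
      rw [hG, Finset.mul_sum]
      exact Finset.sum_congr rfl fun n _ => by ring
    have e2 : ∑ n ∈ S, ∑ m ∈ S, (wt (τ n) * wt (τ m)) *
        ((cz (τ n) v * f n (σ v)) * (cz (τ m) v * f m (σ v))) = G * G := by
      rw [hG, Finset.sum_mul_sum]
      exact Finset.sum_congr rfl fun n _ => Finset.sum_congr rfl fun m _ => by ring
    rw [e1, e2]
    have h1 : T v ^ 2 ≤ N ^ 2 := by
      rw [← sq_abs (T v)]
      exact pow_le_pow_left₀ (abs_nonneg _) (hT v) 2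
    nlinarith [sq_nonneg (T v - G)]
  have e3 : ∑ n ∈ S, ∑ m ∈ S, (wt (τ n) * wt (τ m)) *
      (if n = m then (wt (τ n))⁻¹ * ∫ g, f n g ^ 2 ∂μ else 0) =
      ∑ n ∈ S, wt (τ n) * ∫ g, f n g ^ 2 ∂μ := by
    refine Finset.sum_congr rfl fun n hn => ?_
    rw [Finset.sum_eq_single n]
    · rw [if_pos rfl]
      have := (wt_pos (τ n)).ne'
      field_simp
    · intro m _ hm
      rw [if_neg (Ne.symm hm), mul_zero]
    · intro h
      exact absurd hn h
  rw [e3] at hle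
  have e4 : ∑ n ∈ S, wt (τ n) * (2 * a n - ∫ g, f n g ^ 2 ∂μ) =
      ∑ n ∈ S, (2 * wt (τ n)) * a n - ∑ n ∈ S, wt (τ n) * ∫ g, f n g ^ 2 ∂μ := by
    rw [← Finset.sum_sub_distrib]
    exact Finset.sum_congr rfl fun n _ => by ring
  rw [e4]
  linarith

end

end Pool.Agent.TH375.ED
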