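import Pool.Agent.TH375.ED.Riesz

/-! The density theorem. -/

set_option autoImplicit false

namespace Pool.Agent.TH375.ED

open MeasureTheory Filter Topology
open scoped RealInnerProductSpace

section
variable {G : Type} [Group G] [TopologicalSpace G] [IsTopologicalGroup G] [CompactSpace G]
  [MeasurableSpace G] [BorelSpace G] (μ : Measure G) [IsProbabilityMeasure μ]

/-- **The density of a bounded functional on the even class functions of finite level.** -/
theorem density (l : V G →ₗ[ℝ] ℝ) {c : ℝ} (hc : 0 ≤ c)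
    (hb : ∀ f : V G, |l f| ≤ c * ∫ x, |f.1 x| ∂μ) :
    ∃ θ : G → ℝ, Measurable θ ∧ (∀ g, |θ g| ≤ c) ∧ (∀ g h, θ (h * g * h⁻¹) = θ g) ∧
      (∀ g, θ g⁻¹ = θ g) ∧ ∀ f : V G, l f = ∫ x, θ x * f.1 x ∂μ := by
  obtain ⟨y, hy, f, hf⟩ := riesz μ l hc hb
  -- bounds
  have hup : ∀ᵐ x ∂μ, (y : G → ℝ) x ≤ c := upper μ hf fun g => by
    rw [hy]
    exact (le_abs_self _).trans (hb g)
  have hlow : ∀ᵐ x ∂μ, -c ≤ (y : G → ℝ) x := by
    have h1 : Tendsto (fun n => TL μ (-(f n))) atTop (𝓝 (-y)) := by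
      simp only [map_neg]
      exact hf.neg
    have h2 := upper μ h1 fun g => by
      rw [inner_neg_left, hy]
      exact (neg_le_abs _).trans (hb g)
    filter_upwards [h2, Lp.coeFn_neg y] with x h3 h4
    rw [h4, Pi.neg_apply] at h3
    linarith
  -- a subsequence that converges almost everywhere
  obtain ⟨ns, hns, hae⟩ := (tendstoInMeasure_of_tendsto_Lp hf).exists_seq_tendsto_ae
  have hae' : ∀ᵐ x ∂μ, Tendsto (fun i => (f (ns i)).1 x) atTop (𝓝 ((y : G → ℝ) x)) := by
    have h1 : ∀ᵐ x ∂μ, ∀ i, (TL μ (f (ns i)) : G → ℝ) x = (f (ns i)).1 x :=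
      ae_all_iff.2 fun i => TL_ae μ _
    filter_upwards [hae, h1] with x h2 h3
    exact h2.congr h3
  set u : ℕ → G → ℝ := fun i x => max (-c) (min c ((f (ns i)).1 x)) with hu
  have hEC : ∀ i, EC (u i) := fun i => (f (ns i)).2.comp fun a => max (-c) (min c a)
  have hul : ∀ i x, -c ≤ u i x := fun i x => le_max_left _ _
  have huu : ∀ i x, u i x ≤ c := fun i x => max_le (by linarith) (min_le_left _ _)
  set θ : G → ℝ := fun x => limsup (fun i => u i x) atTop with hθ
  have hbd : ∀ x, IsBoundedUnder (· ≤ ·) atTop fun i => u i x := fun x =>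
    isBoundedUnder_of ⟨c, fun i => huu i x⟩
  have hbd' : ∀ x, IsBoundedUnder (· ≥ ·) atTop fun i => u i x := fun x =>
    isBoundedUnder_of ⟨-c, fun i => hul i x⟩
  have hθae : ∀ᵐ x ∂μ, θ x = (y : G → ℝ) x := by
    filter_upwards [hae', hup, hlow] with x h1 h2 h3
    have h4 : Tendsto (fun i => u i x) atTop (𝓝 ((y : G → ℝ) x)) := by
      have h5 : Tendsto (fun i => u i x) atTop (𝓝 (max (-c) (min c ((y : G → ℝ) x)))) :=
        tendsto_const_nhds.max (tendsto_const_nhds.min h1)
      rwa [min_eq_right h2, max_eq_right h3] at h5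
    exact h4.limsup_eq
  refine ⟨θ, ?_, fun g => ?_, fun g h => ?_, fun g => ?_, fun g => ?_⟩
  · exact Measurable.limsup fun i => (hEC i).cont.measurable
  · rw [abs_le]
    refine ⟨?_, ?_⟩
    · exact le_limsup_of_frequently_le (Frequently.of_forall fun i => hul i g) (hbd g)
    · exact limsup_le_of_le (hbd' g).isCoboundedUnder_le (Eventually.of_forall fun i => huu i g)
  · rw [hθ]
    simp only [(hEC _).cls]
  · rw [hθ]
    simp only [(hEC _).even]
  · rw [← hy, inner_TL]
    refine integral_congr_ae ?_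
    filter_upwards [hθae] with x hx
    rw [hx]

end

end Pool.Agent.TH375.ED
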