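import Pool.Agent.TH375.ED.Extract
import Pool.Agent.TH375.ES.Size

/-! The edge density of an elliptic curve: proofs. -/

set_option autoImplicit false

namespace Pool.Agent.TH375.ED

open MeasureTheory Filter Topology NumberField IsDedekindDomain Complex ComplexConjugate
  Polynomial
  Pool.Agent.W401.Cheb Pool.Agent.W540.BE Pool.Agent.W353.L1 Pool.Agent.W353.AT
  Pool.Agent.W353.SP Pool.Agent.TH375.ES
open Pool.Agent.W353.NF (act fixn fixn_conj fixn_inv fixn_mul_ker ker_act_open act_trans cz abs_cz)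
open Pool.Agent.W353.AB (LE)
open Pool.Agent.H341R2.EC (IsMinAt)
open Pool.Agent.H341R2 (lam lam_tendsto)

section
variable {K : Type} [Field K] [NumberField K]

/-- the real part of the character at the Frobenius elements -/
theorem RR_zero {n : ℕ} (χ : Representation ℂ (GK K) (Fin n → ℂ)) (hχ : IsArtin χ)
    (σ : HeightOneSpectrum (𝓞 K) → GK K) (v : HeightOneSpectrum (𝓞 K)) :
    RR χ 0 σ v = (χ.character (σ v)).re := by
  unfold RR zz
  rw [Complex.ofReal_zero, zero_mul, neg_zero, Complex.cpow_zero, mul_one]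
  exact (ec_char χ hχ).even (σ v)

/-- two heights together -/
theorem pair_lim {T : HeightOneSpectrum (𝓞 K) → ℝ} {N : ℝ} (hT : ∀ v, |T v| ≤ N) {n : ℕ}
    (χ : Representation ℂ (GK K) (Fin n → ℂ)) (hχ : IsArtin χ) (τ : ℝ)
    (σ : HeightOneSpectrum (𝓞 K) → GK K) {A A' : ℝ → ℝ}
    (h1 : Tendsto (fun ε => ED K ε (fun v => T v * RR χ τ σ v) - A ε) (𝓝[>] 0) (𝓝 0))
    (h2 : Tendsto (fun ε => ED K ε (fun v => T v * RR χ (-τ) σ v) - A' ε) (𝓝[>] 0) (𝓝 0)) :
    Tendsto (fun ε => ED K ε (fun v => T v * cz τ v * (χ.character (σ v)).re) -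
      (A ε + A' ε) / 2) (𝓝[>] 0) (𝓝 0) := by
  obtain ⟨U, hUn, hU, hx1⟩ := exists_common (κ := Unit) (n := fun _ => n)
    (fun _ => χ) fun _ => hχ
  have hfin : Finite (GK K ⧸ U) := Subgroup.quotient_finite_of_isOpen U hU
  have hb : ∀ t, Bd fun v => T v * RR χ t σ v := fun t =>
    Bd.mul (f := T) ⟨N, hT⟩ ⟨n, fun v => abs_RR_le U χ (hx1 ()) t σ v⟩
  have h3 := (h1.add h2).div_const 2
  rw [add_zero, zero_div] at h3
  refine h3.congr' ?_
  filter_upwards [(mnD K).add _ _ (hb τ) (hb (-τ))] with ε hε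
  have e1 : (fun v => T v * RR χ τ σ v + T v * RR χ (-τ) σ v) =
      fun v => 2 * (T v * cz τ v * (χ.character (σ v)).re) := by
    funext v
    rw [← mul_add, RR_pair, RR_zero χ hχ]
    ring
  rw [e1, (mnD K).smul] at hε
  linarith

variable [MeasurableSpace (GK K)] [BorelSpace (GK K)] (μ : Measure (GK K)) [μ.IsHaarMeasure]
  [IsProbabilityMeasure μ]

/-- **The edge density of an elliptic curve.** -/
theorem ec_density (W : WeierstrassCurve (𝓞 K)) (hΔ : W.Δ ≠ 0) (τ : ℝ) {e : ℕ → ℝ}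
    (he : Tendsto e atTop (𝓝[>] 0)) :
    ∃ φ : ℕ → ℕ, StrictMono φ ∧ ∃ θ : GK K → ℝ, Measurable θ ∧ (∀ g, |θ g| ≤ cst 2 τ) ∧
      (∀ g h, θ (h * g * h⁻¹) = θ g) ∧ (∀ g, θ g⁻¹ = θ g) ∧
      (∀ (F : IntermediateField K (AlgebraicClosure K)) [NumberField F]
        (V : HeightOneSpectrum (𝓞 F) → WeierstrassCurve (𝓞 F)),
        (∀ v, IsMinAt ((W.map (algebraMap (𝓞 K) K)).map (algebraMap K F)) v (V v)) →
        Tendsto (fun j => Real.log ‖LE V (3 / 2 + τ * I + e (φ j))‖ / Real.log (1 / e (φ j)))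
          atTop (𝓝 (⨍ g in (F.fixingSubgroup : Set (GK K)), θ g ∂μ))) ∧
      (∀ (n : ℕ) (χ : Representation ℂ (GK K) (Fin n → ℂ)), IsArtin χ →
        ∀ B : HeightOneSpectrum (𝓞 K) → ℂ[X],
        (∀ᶠ v in cofinite, ∀ σ : GK K, IsFrob v σ → ∀ z : ℂ,
          (B v).eval z = LinearMap.det (1 - ((trv W v : ℂ) * z) • χ σ⁻¹ +
            (((nm K v : ℕ) : ℂ) * z ^ 2) • (χ σ⁻¹) ^ 2)) →
        (∀ v, (B v).eval (((nm K v : ℕ) : ℂ) ^ (-(3 / 2 + τ * I : ℂ))) ≠ 0) →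
        (∀ v, (B v).eval (((nm K v : ℕ) : ℂ) ^ (-(3 / 2 + (-τ : ℝ) * I : ℂ))) ≠ 0) →
        ∀ L : ℂ → ℂ,
        (∀ s : ℂ, 3 / 2 < s.re → L s = ∏' v, ((B v).eval (((nm K v : ℕ) : ℂ) ^ (-s)))⁻¹) →
        Tendsto (fun j => (Real.log ‖L (3 / 2 + τ * I + e (φ j))‖ / Real.log (1 / e (φ j)) +
          Real.log ‖L (3 / 2 + (-τ : ℝ) * I + e (φ j))‖ / Real.log (1 / e (φ j))) / 2)
          atTop (𝓝 (∫ g, θ g * (χ.character g).re ∂μ))) ∧
      ∀ (c : ℕ) (η : ℝ), 0 < η → ∃ M : IntermediateField K (AlgebraicClosure K),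
        FiniteDimensional K M ∧ IsGalois K M ∧
        ∀ (F : IntermediateField K (AlgebraicClosure K)) [NumberField F],
          Module.finrank K F ≤ c →
            |(⨍ g in (F.fixingSubgroup : Set (GK K)), θ g ∂μ) -
              ⨍ g in ((F ⊓ M : IntermediateField K (AlgebraicClosure K)).fixingSubgroup :
                Set (GK K)), θ g ∂μ| < η := by
  choose σ hσ using exists_isFrob (F := K)
  obtain ⟨φ, hφ, θ, h1, h2, h3, h4, h5, h6⟩ := exists_density μ (N := 2) (by norm_num)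
    (abs_tv W) τ σ hσ he
  have hz : Tendsto (fun j => e (φ j)) atTop (𝓝[>] 0) := he.comp hφ.tendsto_atTop
  refine ⟨φ, hφ, θ, h1, h2, h3, h4, fun F _ V hV => ?_, fun n χ hχ B hB hB0 hB1 L hL => ?_, h6⟩
  · have h7 := (h5 _ (ec_fixn F)).sub ((sizeF W hΔ V hV τ σ hσ).2.comp hz)
    rw [sub_zero, fix_avg μ F h1 h2 h3] at h7
    refine h7.congr fun j => ?_
    rw [Function.comp_apply]
    unfold tz
    ring
  · have h7 := pair_lim (abs_tv W) χ hχ τ σ (sizeA W hΔ χ hχ τ B hB hB0 L hL σ hσ).2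
      (sizeA W hΔ χ hχ (-τ) B hB hB1 L hL σ hσ).2
    have h8 := (h5 _ (ec_char χ hχ)).sub (h7.comp hz)
    rw [sub_zero] at h8
    refine h8.congr fun j => ?_
    rw [Function.comp_apply]
    ring

end

end Pool.Agent.TH375.ED
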