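import Pool.Agent.TH375.ED.Multi
import Pool.Agent.TH375.ED.EC

/-! The edge densities of an elliptic curve at countably many heights: proofs. -/

set_option autoImplicit false

namespace Pool.Agent.TH375.ED

open MeasureTheory Filter Topology NumberField IsDedekindDomain Complex ComplexConjugate
  Polynomial
  Pool.Agent.W401.Cheb Pool.Agent.W540.BE Pool.Agent.W353.L1 Pool.Agent.W353.AT
  Pool.Agent.W353.SP Pool.Agent.TH375.ES
open Pool.Agent.W353.NF (act fixn fixn_conj fixn_inv fixn_mul_ker ker_act_open act_trans cz abs_cz)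
open Pool.Agent.W353.AB (LE)
open Pool.Agent.H341R2.EC (IsMinAt)
open Pool.Agent.H341R2 (lam lam_tendsto)

section
variable {K : Type} [Field K] [NumberField K]

theorem cz_neg (τ : ℝ) (v : HeightOneSpectrum (𝓞 K)) : cz (-τ) v = cz τ v := by
  unfold cz
  rw [← conj_zz, Complex.conj_re]

theorem cz_abs {t τ : ℝ} (h : |t| = τ) (v : HeightOneSpectrum (𝓞 K)) : cz t v = cz τ v := by
  rcases abs_choice t with h' | h'
  · rw [← h, h']
  · rw [← h, h', cz_neg]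

/-- the symmetric mean over the two heights -/
theorem pair_lim' {T : HeightOneSpectrum (𝓞 K) → ℝ} {N : ℝ} (hT : ∀ v, |T v| ≤ N) {n : ℕ}
    (χ : Representation ℂ (GK K) (Fin n → ℂ)) (hχ : IsArtin χ) {t τ : ℝ} (ht : |t| = τ)
    (σ : HeightOneSpectrum (𝓞 K) → GK K) {A A' : ℝ → ℝ}
    (h1 : Tendsto (fun ε => ED K ε (fun v => T v * RR χ t σ v) - A ε) (𝓝[>] 0) (𝓝 0))
    (h2 : Tendsto (fun ε => ED K ε (fun v => T v * RR χ (-t) σ v) - A' ε) (𝓝[>] 0) (𝓝 0)) :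
    Tendsto (fun ε => ED K ε (fun v => T v * cz τ v * (χ.character (σ v)).re) -
      (A ε + A' ε) / 2) (𝓝[>] 0) (𝓝 0) := by
  have h3 := pair_lim hT χ hχ t σ h1 h2
  refine h3.congr fun ε => ?_
  congr 2
  funext v
  rw [cz_abs ht]

variable [MeasurableSpace (GK K)] [BorelSpace (GK K)] (μ : Measure (GK K)) [μ.IsHaarMeasure]
  [IsProbabilityMeasure μ]

/-- **The edge densities of an elliptic curve.** -/
theorem ec_densities (W : WeierstrassCurve (𝓞 K)) (hΔ : W.Δ ≠ 0) {τ : ℕ → ℝ}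
    (hτ0 : ∀ n, 0 ≤ τ n) (hτ : Function.Injective τ) {e : ℕ → ℝ}
    (he : Tendsto e atTop (𝓝[>] 0)) :
    ∃ φ : ℕ → ℕ, StrictMono φ ∧ ∃ θ : ℕ → GK K → ℝ,
      (∀ k, Measurable (θ k) ∧ (∀ g, |θ k g| ≤ cst 2 (τ k)) ∧
        (∀ g h, θ k (h * g * h⁻¹) = θ k g) ∧ ∀ g, θ k g⁻¹ = θ k g) ∧
      (∀ (k : ℕ) (t : ℝ), |t| = τ k →
        (∀ (F : IntermediateField K (AlgebraicClosure K)) [NumberField F]
          (V : HeightOneSpectrum (𝓞 F) → WeierstrassCurve (𝓞 F)),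
          (∀ v, IsMinAt ((W.map (algebraMap (𝓞 K) K)).map (algebraMap K F)) v (V v)) →
          Tendsto (fun j => Real.log ‖LE V (3 / 2 + t * I + e (φ j))‖ / Real.log (1 / e (φ j)))
            atTop (𝓝 (⨍ g in (F.fixingSubgroup : Set (GK K)), θ k g ∂μ))) ∧
        (∀ (n : ℕ) (χ : Representation ℂ (GK K) (Fin n → ℂ)), IsArtin χ →
          ∀ B : HeightOneSpectrum (𝓞 K) → ℂ[X],
          (∀ᶠ v in cofinite, ∀ σ : GK K, IsFrob v σ → ∀ z : ℂ,
            (B v).eval z = LinearMap.det (1 - ((trv W v : ℂ) * z) • χ σ⁻¹ +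
              (((nm K v : ℕ) : ℂ) * z ^ 2) • (χ σ⁻¹) ^ 2)) →
          (∀ v, (B v).eval (((nm K v : ℕ) : ℂ) ^ (-(3 / 2 + t * I : ℂ))) ≠ 0) →
          (∀ v, (B v).eval (((nm K v : ℕ) : ℂ) ^ (-(3 / 2 + (-t : ℝ) * I : ℂ))) ≠ 0) →
          ∀ L : ℂ → ℂ,
          (∀ s : ℂ, 3 / 2 < s.re → L s = ∏' v, ((B v).eval (((nm K v : ℕ) : ℂ) ^ (-s)))⁻¹) →
          Tendsto (fun j => (Real.log ‖L (3 / 2 + t * I + e (φ j))‖ / Real.log (1 / e (φ j)) +
            Real.log ‖L (3 / 2 + (-t : ℝ) * I + e (φ j))‖ / Real.log (1 / e (φ j))) / 2)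
            atTop (𝓝 (∫ g, θ k g * (χ.character g).re ∂μ)))) ∧
      (∀ S : Finset ℕ, ∑ k ∈ S, wt (τ k) * ∫ g, θ k g ^ 2 ∂μ ≤ 2 ^ 2) ∧
      ∀ (c : ℕ) (η : ℝ), 0 < η → ∃ M : IntermediateField K (AlgebraicClosure K),
        FiniteDimensional K M ∧ IsGalois K M ∧
        ∀ (k : ℕ) (F : IntermediateField K (AlgebraicClosure K)) [NumberField F],
          Module.finrank K F ≤ c →
            |(⨍ g in (F.fixingSubgroup : Set (GK K)), θ k g ∂μ) -
              ⨍ g in ((F ⊓ M : IntermediateField K (AlgebraicClosure K)).fixingSubgroup :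
                Set (GK K)), θ k g ∂μ| < η := by
  choose σ hσ using exists_isFrob (F := K)
  obtain ⟨φ, hφ, θ, h1, h5, h6, h7⟩ := exists_densities μ (N := 2) (by norm_num)
    (abs_tv W) hτ0 hτ σ hσ he
  have hz : Tendsto (fun j => e (φ j)) atTop (𝓝[>] 0) := he.comp hφ.tendsto_atTop
  refine ⟨φ, hφ, θ, h1, fun k t ht => ⟨fun F _ V hV => ?_, fun n χ hχ B hB hB0 hB1 L hL => ?_⟩,
    h6, h7⟩
  · obtain ⟨h2, h3, h4, -⟩ := h1 k
    have h8 := (h5 k _ (ec_fixn F)).sub ((sizeF W hΔ V hV t σ hσ).2.comp hz)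
    rw [sub_zero, fix_avg μ F h2 h3 h4] at h8
    refine h8.congr fun j => ?_
    rw [Function.comp_apply]
    have e1 : (fun v => tz W t v * (fixn K F (σ v) : ℝ)) =
        fun v => tv W v * cz (τ k) v * fixn K F (σ v) := by
      funext v
      unfold tz
      rw [cz_abs ht]
    rw [e1]
    ring
  · have h8 := pair_lim' (abs_tv W) χ hχ ht σ (sizeA W hΔ χ hχ t B hB hB0 L hL σ hσ).2
      (sizeA W hΔ χ hχ (-t) B hB hB1 L hL σ hσ).2
    have h9 := (h5 k _ (ec_char χ hχ)).sub (h8.comp hz)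
    rw [sub_zero] at h9
    refine h9.congr fun j => ?_
    rw [Function.comp_apply]
    ring

end

end Pool.Agent.TH375.ED
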