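import Pool.Agent.TH375.ED.Fix

/-! The density of a bounded real function on the primes along a subsequence. -/

set_option autoImplicit false

namespace Pool.Agent.TH375.ED

open MeasureTheory Filter Topology NumberField IsDedekindDomain Complex ComplexConjugate
  Pool.Agent.W401.Cheb Pool.Agent.W540.BE Pool.Agent.W353.L1 Pool.Agent.W353.AT
  Pool.Agent.W353.SP
open Pool.Agent.W353.NF (act fixn fixn_conj fixn_inv fixn_mul_ker ker_act_open act_trans cz abs_cz)
open Pool.Agent.H341R2 (lam lam_tendsto)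

section
variable {K : Type} [Field K] [NumberField K]

/-- open normal subgroups inside an open subgroup -/
theorem exists_normal {U : Subgroup (GK K)} (hU : IsOpen (U : Set (GK K))) :
    ∃ U' : Subgroup (GK K), U'.Normal ∧ IsOpen (U' : Set (GK K)) ∧ U' ≤ U := by
  set M : IntermediateField K (AlgebraicClosure K) := IntermediateField.fixedField U with hM
  have hMU : M.fixingSubgroup = U :=
    InfiniteGalois.fixingSubgroup_fixedField ⟨U, U.isClosed_of_isOpen hU⟩
  have hfd : FiniteDimensional K M := by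
    rw [← InfiniteGalois.isOpen_iff_finite, hMU]
    exact hU
  have hnf : NumberField M := NumberField.of_module_finite K _
  refine ⟨(act K M).ker, inferInstance, ker_act_open K M, fun g hg => ?_⟩
  have h1 : act K M g M.val = M.val := by
    rw [(MonoidHom.mem_ker).1 hg]
    rfl
  rw [← hMU]
  exact (fixing_iff M g).1 h1

/-- the constant -/
noncomputable def cst (N τ : ℝ) : ℝ := if τ = 0 then N else N * (2 / Real.pi)

theorem cst_nonneg {N : ℝ} (hN : 0 ≤ N) (τ : ℝ) : 0 ≤ cst N τ := by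
  unfold cst
  have := Real.pi_pos
  split_ifs <;> positivity

variable [MeasurableSpace (GK K)] [BorelSpace (GK K)] (μ : Measure (GK K)) [μ.IsHaarMeasure]
  [IsProbabilityMeasure μ]

/-- the bound by the `L¹`-norm -/
theorem l1_bound {T : HeightOneSpectrum (𝓞 K) → ℝ} {N : ℝ} (hT : ∀ v, |T v| ≤ N)
    (τ : ℝ) (σ : HeightOneSpectrum (𝓞 K) → GK K) (hσ : ∀ v, IsFrob v (σ v)) {z : ℕ → ℝ}
    (hz : Tendsto z atTop (𝓝[>] 0)) {f : GK K → ℝ} (hf : EC f) {m : ℝ}
    (hm : Hs atTop (fun j => ED K (z j)) (fun v => T v * cz τ v * f (σ v)) m) :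
    |m| ≤ cst N τ * ∫ g, |f g| ∂μ := by
  have h' : Mn atTop fun j => ED K (z j) := (mnD K).comp hz
  obtain ⟨U₀, hU₀, hl₀⟩ := hf.lev
  obtain ⟨U, hUn, hU, hle⟩ := exists_normal hU₀
  have hl : ∀ g, ∀ u ∈ U, f (g * u) = f g := fun g u hu => hl₀ g u (hle hu)
  have hfin : Finite (GK K ⧸ U) := Subgroup.quotient_finite_of_isOpen U hU
  let _ : Fintype (GK K ⧸ U) := Fintype.ofFinite _
  set ψ : GK K ⧸ U → ℝ := fun q => f q.out with hψ
  have hψf : ∀ g, ψ (QuotientGroup.mk g) = f g := by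
    intro g
    obtain ⟨u, hu⟩ := QuotientGroup.mk_out_eq_mul U g
    rw [hψ]
    simp only
    rw [hu, hl g u u.2]
  have hψc : ∀ a x, ψ (x * a * x⁻¹) = ψ a := by
    intro a x
    obtain ⟨a, rfl⟩ := QuotientGroup.mk_surjective a
    obtain ⟨x, rfl⟩ := QuotientGroup.mk_surjective x
    rw [← QuotientGroup.mk_mul, ← QuotientGroup.mk_inv, ← QuotientGroup.mk_mul, hψf, hψf, hf.cls]
  have hψi : ∀ q, ψ q⁻¹ = ψ q := by
    intro q
    obtain ⟨g, rfl⟩ := QuotientGroup.mk_surjective q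
    rw [← QuotientGroup.mk_inv, hψf, hψf, hf.even]
  have hint : ∫ g, |f g| ∂μ = avR U fun q => |ψ q| := by
    have h1 := integral_level μ hU fun q => |ψ q|
    simp only [hψf] at h1
    exact h1
  have hRe : ∀ v, (((ψ (QuotientGroup.mk (σ v)) : ℝ) : ℂ) * zz τ v).re = cz τ v * f (σ v) := by
    intro v
    rw [Complex.re_ofReal_mul, hψf, mul_comm]
    rfl
  -- the mean value of the absolute value
  have hlim : Tendsto (fun ε : ℝ => ED K ε fun v => |cz τ v * f (σ v)|) (𝓝[>] 0)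
      (𝓝 ((if τ = 0 then 1 else 2 / Real.pi) * ∫ g, |f g| ∂μ)) := by
    rw [hint]
    by_cases hτ : τ = 0
    · subst hτ
      rw [if_pos rfl, one_mul]
      have h1 := equi_zero U hU (fun q => ((ψ q : ℝ) : ℂ)) (fun a x => by rw [hψc]) σ hσ
      simp only [Complex.ofReal_re] at h1
      refine h1.congr fun ε => ?_
      unfold ED
      congr 2
      funext v
      rw [hRe]
    · rw [if_neg hτ]
      have h1 := equi U hU (fun q => ((ψ q : ℝ) : ℂ)) (fun a x => by rw [hψc])
        (fun q => by rw [hψi, Complex.conj_ofReal]) σ hσ hτ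
      simp only [Complex.norm_real, Real.norm_eq_abs] at h1
      refine h1.congr fun ε => ?_
      unfold ED
      congr 2
      funext v
      rw [hRe]
  obtain ⟨C, hC⟩ := hf.bdd
  have hbd : Bd fun v => |cz τ v * f (σ v)| := ⟨C, fun v => by
    rw [abs_abs, abs_mul]
    have h1 : |cz τ v| * |f (σ v)| ≤ 1 * C :=
      mul_le_mul (abs_cz τ v) (hC _) (abs_nonneg _) (by norm_num)
    rwa [one_mul] at h1⟩
  have hA : Hs atTop (fun j => ED K (z j)) (fun v => |cz τ v * f (σ v)|)
      ((if τ = 0 then 1 else 2 / Real.pi) * ∫ g, |f g| ∂μ) := ⟨hbd, hlim.comp hz⟩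
  have hA' := h'.hsMul hA N
  have hle' : ∀ v, |T v * cz τ v * f (σ v)| ≤ N * |cz τ v * f (σ v)| := by
    intro v
    rw [mul_assoc, abs_mul]
    exact mul_le_mul_of_nonneg_right (hT v) (abs_nonneg _)
  have h1 : m ≤ N * ((if τ = 0 then 1 else 2 / Real.pi) * ∫ g, |f g| ∂μ) :=
    Hs.le h' hm hA' fun v => (le_abs_self _).trans (hle' v)
  have h2 : -1 * m ≤ N * ((if τ = 0 then 1 else 2 / Real.pi) * ∫ g, |f g| ∂μ) :=
    Hs.le h' (h'.hsMul hm (-1)) hA' fun v => by
      have h3 := (neg_le_abs _).trans (hle' v)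
      linarith
  have e : cst N τ * ∫ g, |f g| ∂μ =
      N * ((if τ = 0 then 1 else 2 / Real.pi) * ∫ g, |f g| ∂μ) := by
    unfold cst
    split_ifs <;> ring
  rw [e, abs_le]
  constructor <;> linarith

/-- **The density.** -/
theorem exists_density {T : HeightOneSpectrum (𝓞 K) → ℝ} {N : ℝ} (hN : 0 ≤ N)
    (hT : ∀ v, |T v| ≤ N) (τ : ℝ) (σ : HeightOneSpectrum (𝓞 K) → GK K)
    (hσ : ∀ v, IsFrob v (σ v)) {e : ℕ → ℝ} (he : Tendsto e atTop (𝓝[>] 0)) :
    ∃ φ : ℕ → ℕ, StrictMono φ ∧ ∃ θ : GK K → ℝ, Measurable θ ∧ (∀ g, |θ g| ≤ cst N τ) ∧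
      (∀ g h, θ (h * g * h⁻¹) = θ g) ∧ (∀ g, θ g⁻¹ = θ g) ∧
      (∀ f : GK K → ℝ, EC f → Tendsto
        (fun j => ED K (e (φ j)) fun v => T v * cz τ v * f (σ v)) atTop
          (𝓝 (∫ g, θ g * f g ∂μ))) ∧
      ∀ (c : ℕ) (η : ℝ), 0 < η → ∃ M : IntermediateField K (AlgebraicClosure K),
        FiniteDimensional K M ∧ IsGalois K M ∧
        ∀ (F : IntermediateField K (AlgebraicClosure K)) [NumberField F],
          Module.finrank K F ≤ c →
            |(⨍ g in (F.fixingSubgroup : Set (GK K)), θ g ∂μ) -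
              ⨍ g in ((F ⊓ M : IntermediateField K (AlgebraicClosure K)).fixingSubgroup :
                Set (GK K)), θ g ∂μ| < η := by
  classical
  set T' : HeightOneSpectrum (𝓞 K) → ℝ := fun v => T v * cz τ v with hT'
  have hT'N : ∀ v, |T' v| ≤ N := by
    intro v
    rw [hT']
    simp only
    rw [abs_mul]
    calc |T v| * |cz τ v| ≤ N * 1 := mul_le_mul (hT v) (abs_cz τ v) (abs_nonneg _) hN
      _ = N := mul_one _
  obtain ⟨φ, hφ, hconv⟩ := exists_sub (mnD K) σ (T := T') ⟨N, hT'N⟩ he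
  have hz : Tendsto (fun j => e (φ j)) atTop (𝓝[>] 0) := he.comp hφ.tendsto_atTop
  have h' : Mn atTop fun j => ED K (e (φ j)) := (mnD K).comp hz
  have hex : ∀ f : V (GK K), ∃ m : ℝ,
      Hs atTop (fun j => ED K (e (φ j))) (fun v => T' v * f.1 (σ v)) m := by
    intro f
    obtain ⟨U, hU, hl⟩ := f.2.lev
    exact hconv U hU f.1 hl
  choose l hl using hex
  let L : V (GK K) →ₗ[ℝ] ℝ :=
    { toFun := l
      map_add' := fun f g => (hl (f + g)).unique (h'.hsAdd (hl f) (hl g)) fun v => by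
        change T' v * (f.1 (σ v) + g.1 (σ v)) = _
        ring
      map_smul' := fun a f => (hl (a • f)).unique (h'.hsMul (hl f) a) fun v => by
        change T' v * (a * f.1 (σ v)) = _
        ring }
  obtain ⟨θ, h1, h2, h3, h4, h5⟩ := density μ L (cst_nonneg hN τ) fun f =>
    l1_bound μ hT τ σ hσ hz f.2 (hl f)
  refine ⟨φ, hφ, θ, h1, h2, h3, h4, fun f hf => ?_, fun c η hη => ?_⟩
  · have h6 := (hl ⟨f, hf⟩).2
    have h7 := h5 ⟨f, hf⟩
    change l ⟨f, hf⟩ = _ at h7
    rw [h7] at h6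
    exact h6
  · obtain ⟨zF, zA, h6, -, -, -, h10⟩ := spectral h' hσ hN hT'N hconv
    obtain ⟨M, hM1, hM2, hM3⟩ := h10 c η hη
    refine ⟨M, hM1, hM2, fun F _ hF => ?_⟩
    have hle : F ⊓ M ≤ M := inf_le_right
    have hfd' : FiniteDimensional K (F ⊓ M : IntermediateField K (AlgebraicClosure K)) :=
      FiniteDimensional.of_injective (IntermediateField.inclusion hle).toLinearMap
        (IntermediateField.inclusion_injective hle)
    have hnf : NumberField (F ⊓ M : IntermediateField K (AlgebraicClosure K)) :=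
      NumberField.of_module_finite K _
    have key : ∀ (F' : IntermediateField K (AlgebraicClosure K)) [NumberField F'],
        zF F' = ⨍ g in (F'.fixingSubgroup : Set (GK K)), θ g ∂μ := by
      intro F' _
      rw [← fix_avg μ F' h1 h2 h3]
      have h11 := h5 ⟨_, ec_fixn F'⟩
      change l ⟨_, ec_fixn F'⟩ = _ at h11
      rw [← h11]
      exact (h6 F').unique (hl ⟨_, ec_fixn F'⟩) fun v => rfl
    rw [← key F, ← key (F ⊓ M)]
    exact hM3 F hF

end

end Pool.Agent.TH375.ED
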