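import Pool.Agent.TH375.ED.Haar

/-! The permutation characters of the number fields. -/

set_option autoImplicit false

namespace Pool.Agent.TH375.ED

open MeasureTheory Filter Topology NumberField IsDedekindDomain Complex ComplexConjugate
  Pool.Agent.W401.Cheb Pool.Agent.W540.BE Pool.Agent.W353.L1 Pool.Agent.W353.AT
  Pool.Agent.W353.SP
open Pool.Agent.W353.NF (act fixn fixn_conj fixn_inv fixn_mul_ker ker_act_open act_trans cz)
open Pool.Agent.H341R2 (lam lam_tendsto)

section
variable {K : Type} [Field K] [NumberField K]

/-- the permutation character is an even class function of finite level -/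
theorem ec_fixn (F : Type) [Field F] [NumberField F] [Algebra K F] :
    EC fun g : GK K => (fixn K F g : ℝ) where
  lev := ⟨(act K F).ker, ker_act_open K F, fun g u hu => by
    rw [fixn_mul_ker K F g u ((MonoidHom.mem_ker).1 hu)]⟩
  cls g h := by rw [fixn_conj]
  even g := by rw [fixn_inv]

/-- the real part of an Artin character -/
theorem ec_char {n : ℕ} (χ : Representation ℂ (GK K) (Fin n → ℂ)) (hχ : IsArtin χ) :
    EC fun g : GK K => (χ.character g).re := by
  obtain ⟨U, hUn, hU, hx1⟩ := exists_common (κ := Unit) (n := fun _ => n)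
    (fun _ => χ) fun _ => hχ
  have hfin : Finite (GK K ⧸ U) := Subgroup.quotient_finite_of_isOpen U hU
  refine ⟨⟨U, hU, fun g u hu => ?_⟩, fun g h => ?_, fun g => ?_⟩
  · unfold Representation.character
    rw [map_mul, hx1 () u hu, mul_one]
  · rw [Representation.char_conj]
  · have h1 := char_conj_eq U χ (hx1 ()) g
    have h2 := congrArg Complex.re h1
    rw [Complex.conj_re] at h2
    exact h2

omit [NumberField K] in
/-- the fixed points as a sum -/
theorem fixn_eq (F : Type) [Field F] [NumberField F] [Algebra K F] (g : GK K)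
    [Fintype (F →ₐ[K] AlgebraicClosure K)] [DecidableEq (F →ₐ[K] AlgebraicClosure K)] :
    (fixn K F g : ℝ) = ∑ i : F →ₐ[K] AlgebraicClosure K, if act K F g i = i then 1 else 0 := by
  unfold fixn
  rw [Finset.sum_boole, Nat.card_eq_fintype_card, Fintype.card_subtype]

theorem fixing_iff (F : IntermediateField K (AlgebraicClosure K)) [NumberField F] (g : GK K) :
    act K F g F.val = F.val ↔ g ∈ F.fixingSubgroup := by
  have h := act_fix_iff F.val g
  rwa [IntermediateField.fieldRange_val] at h

variable [MeasurableSpace (GK K)] [BorelSpace (GK K)] (μ : Measure (GK K)) [μ.IsHaarMeasure]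
  [IsProbabilityMeasure μ]

/-- **The mean value over the absolute Galois group of a number field.** -/
theorem fix_avg (F : IntermediateField K (AlgebraicClosure K)) [NumberField F]
    {θ : GK K → ℝ} (hm : Measurable θ) {c : ℝ} (hb : ∀ g, |θ g| ≤ c)
    (hcls : ∀ g h, θ (h * g * h⁻¹) = θ g) :
    ∫ g, θ g * fixn K F g ∂μ = ⨍ g in (F.fixingSubgroup : Set (GK K)), θ g ∂μ := by
  classical
  set S : Set (GK K) := (F.fixingSubgroup : Set (GK K)) with hS
  have hfd : FiniteDimensional K F := FiniteDimensional.right ℚ K F
  have hopen : IsOpen S := IntermediateField.fixingSubgroup_isOpen F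
  have hmS : MeasurableSet S := hopen.measurableSet
  let _ : Fintype (F →ₐ[K] AlgebraicClosure K) := Fintype.ofFinite _
  set A : (F →ₐ[K] AlgebraicClosure K) → Set (GK K) := fun i => {g | act K F g i = i} with hA
  have hA0 : A F.val = S := by
    ext g
    exact fixing_iff F g
  -- conjugate sets
  have hconj : ∀ i, ∃ h : GK K, A i = (fun g => h * g * h⁻¹) ⁻¹' S := by
    intro i
    obtain ⟨h, hh⟩ := act_trans K F i F.val
    refine ⟨h, ?_⟩
    ext g
    rw [Set.mem_preimage, ← hA0]
    change act K F g i = i ↔ act K F (h * g * h⁻¹) F.val = F.val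
    have h2 : act K F h⁻¹ F.val = i := by
      rw [← hh, ← Equiv.Perm.mul_apply, ← map_mul, inv_mul_cancel, map_one]
      rfl
    rw [map_mul, map_mul, Equiv.Perm.mul_apply, Equiv.Perm.mul_apply, h2]
    constructor
    · intro h3
      rw [h3, hh]
    · intro h3
      exact (act K F h).injective (h3.trans hh.symm)
  have hint : ∀ (ψ : GK K → ℝ), Measurable ψ → (∀ g, |ψ g| ≤ c) →
      ∀ s, MeasurableSet s → Integrable (s.indicator ψ) μ := by
    intro ψ h1 h2 s hs
    exact (Integrable.of_bound h1.aestronglyMeasurable c (ae_of_all _ h2)).indicator hs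
  have hAm : ∀ i, MeasurableSet (A i) := by
    intro i
    obtain ⟨h, hh⟩ := hconj i
    rw [hh]
    exact (hopen.preimage (by fun_prop)).measurableSet
  have hAi : ∀ i, ∫ g, (A i).indicator θ g ∂μ = ∫ g in S, θ g ∂μ := by
    intro i
    obtain ⟨h, hh⟩ := hconj i
    rw [← integral_indicator hmS, ← integral_conj μ (S.indicator θ) h]
    refine integral_congr_ae (ae_of_all _ fun g => ?_)
    change (A i).indicator θ g = S.indicator θ (h * g * h⁻¹)
    by_cases hg : g ∈ A i
    · have hg' : h * g * h⁻¹ ∈ S := by
        rw [hh] at hg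
        exact hg
      rw [Set.indicator_of_mem hg, Set.indicator_of_mem hg', hcls]
    · have hg' : h * g * h⁻¹ ∉ S := by
        rw [hh] at hg
        exact hg
      rw [Set.indicator_of_notMem hg, Set.indicator_of_notMem hg']
  -- the number of embeddings
  have hcard : (Fintype.card (F →ₐ[K] AlgebraicClosure K) : ℝ) * μ.real S = 1 := by
    set B : (F →ₐ[K] AlgebraicClosure K) → Set (GK K) := fun i => {g | act K F g F.val = i}
      with hB
    have hBt : ∀ i, ∃ h : GK K, B i = (fun g => h * g) ⁻¹' S := by
      intro i
      obtain ⟨h, hh⟩ := act_trans K F i F.val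
      refine ⟨h, ?_⟩
      ext g
      rw [Set.mem_preimage, ← hA0]
      change act K F g F.val = i ↔ act K F (h * g) F.val = F.val
      rw [map_mul, Equiv.Perm.mul_apply]
      constructor
      · intro h3
        rw [h3, hh]
      · intro h3
        exact (act K F h).injective (h3.trans hh.symm)
    have hBm : ∀ i, MeasurableSet (B i) := by
      intro i
      obtain ⟨h, hh⟩ := hBt i
      rw [hh]
      exact (hopen.preimage (by fun_prop)).measurableSet
    have hBμ : ∀ i, μ.real (B i) = μ.real S := by
      intro i
      obtain ⟨h, hh⟩ := hBt i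
      rw [hh, measureReal_def, measureReal_def, measure_preimage_mul]
    have h1 : ∫ _g : GK K, (1 : ℝ) ∂μ = ∑ i, ∫ g, (B i).indicator (fun _ => (1 : ℝ)) g ∂μ := by
      rw [← integral_finsetSum]
      · refine integral_congr_ae (ae_of_all _ fun g => ?_)
        change (1 : ℝ) = ∑ i, (B i).indicator (fun _ => (1 : ℝ)) g
        rw [Finset.sum_eq_single (act K F g F.val)]
        · rw [Set.indicator_of_mem]
          rfl
        · intro i _ hi
          rw [Set.indicator_of_notMem]
          exact fun h => hi h.symm
        · intro h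
          exact absurd (Finset.mem_univ _) h
      · intro i _
        exact (integrable_const _).indicator (hBm i)
    rw [integral_const, probReal_univ, smul_eq_mul, mul_one] at h1
    rw [h1]
    have h2 : ∀ i, ∫ g, (B i).indicator (fun _ => (1 : ℝ)) g ∂μ = μ.real S := by
      intro i
      rw [integral_indicator_const _ (hBm i), hBμ, smul_eq_mul, mul_one]
    rw [Finset.sum_congr rfl fun i _ => h2 i, Finset.sum_const, Finset.card_univ, nsmul_eq_mul]
  have hsum : ∫ g, θ g * fixn K F g ∂μ =
      (Fintype.card (F →ₐ[K] AlgebraicClosure K) : ℝ) * ∫ g in S, θ g ∂μ := by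
    have e : (fun g => θ g * fixn K F g) = fun g => ∑ i, (A i).indicator θ g := by
      funext g
      rw [fixn_eq, Finset.mul_sum]
      refine Finset.sum_congr rfl fun i _ => ?_
      by_cases hg : act K F g i = i
      · rw [if_pos hg, mul_one, Set.indicator_of_mem]
        exact hg
      · rw [if_neg hg, mul_zero, Set.indicator_of_notMem]
        exact hg
    rw [e, integral_finsetSum _ fun i _ => hint θ hm hb _ (hAm i),
      Finset.sum_congr rfl fun i _ => hAi i, Finset.sum_const, Finset.card_univ, nsmul_eq_mul]
  rw [hsum, setAverage_eq, smul_eq_mul]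
  congr 1
  exact eq_inv_of_mul_eq_one_left hcard

end

end Pool.Agent.TH375.ED
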