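import Pool.Agent.TH375.ED.Density
import Pool.Agent.W353.SP.Inst
import Pool.Agent.W353.AT.Abs2

/-! Haar measure on a compact group and on the absolute Galois group. -/

set_option autoImplicit false

namespace Pool.Agent.TH375.ED

open MeasureTheory Filter Topology

section
variable {G : Type} [Group G] [TopologicalSpace G] [IsTopologicalGroup G] [CompactSpace G]
  [MeasurableSpace G] [BorelSpace G] (μ : Measure G) [μ.IsHaarMeasure] [IsProbabilityMeasure μ]

/-- the measure of a coset -/
theorem measure_coset (U : Subgroup G) (q : G ⧸ U) :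
    μ.real {x | (QuotientGroup.mk x : G ⧸ U) = q} = μ.real (U : Set G) := by
  have h1 : {x | (QuotientGroup.mk x : G ⧸ U) = q} = (fun x => q.out⁻¹ * x) ⁻¹' (U : Set G) := by
    ext x
    rw [Set.mem_ofPred_eq, Set.mem_preimage, SetLike.mem_coe, ← QuotientGroup.eq,
      QuotientGroup.out_eq', eq_comm]
  rw [h1, measureReal_def, measureReal_def, measure_preimage_mul]

theorem measurable_coset {U : Subgroup G} (hU : IsOpen (U : Set G)) (q : G ⧸ U) :
    MeasurableSet {x | (QuotientGroup.mk x : G ⧸ U) = q} := by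
  have h1 : {x | (QuotientGroup.mk x : G ⧸ U) = q} = (fun x => q.out⁻¹ * x) ⁻¹' (U : Set G) := by
    ext x
    rw [Set.mem_ofPred_eq, Set.mem_preimage, SetLike.mem_coe, ← QuotientGroup.eq,
      QuotientGroup.out_eq', eq_comm]
  rw [h1]
  exact (hU.preimage (continuous_const_mul _)).measurableSet

/-- integrals of functions of finite level -/
theorem integral_level {U : Subgroup G} (hU : IsOpen (U : Set G)) [Finite (G ⧸ U)]
    (ψ : G ⧸ U → ℝ) :
    ∫ x, ψ (QuotientGroup.mk x) ∂μ = (Nat.card (G ⧸ U) : ℝ)⁻¹ * ∑ᶠ q, ψ q := by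
  classical
  let _ : Fintype (G ⧸ U) := Fintype.ofFinite _
  have key : ∀ ψ : G ⧸ U → ℝ, ∫ x, ψ (QuotientGroup.mk x) ∂μ = (∑ q, ψ q) * μ.real U := by
    intro ψ
    have e : (fun x : G => ψ (QuotientGroup.mk x)) = fun x => ∑ q : G ⧸ U,
        Set.indicator {x | (QuotientGroup.mk x : G ⧸ U) = q} (fun _ => ψ q) x := by
      funext x
      rw [Finset.sum_eq_single (QuotientGroup.mk x : G ⧸ U)]
      · rw [Set.indicator_of_mem]
        rfl
      · intro q _ hq
        rw [Set.indicator_of_notMem]
        exact fun h => hq h.symm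
      · intro h
        exact absurd (Finset.mem_univ _) h
    rw [e, integral_finsetSum, Finset.sum_mul]
    · refine Finset.sum_congr rfl fun q _ => ?_
      rw [integral_indicator_const _ (measurable_coset hU q), measure_coset, smul_eq_mul, mul_comm]
    · intro q _
      exact (integrable_const _).indicator (measurable_coset hU q)
  have h1 := key fun _ => 1
  rw [integral_const, Finset.sum_const, Finset.card_univ, smul_eq_mul, mul_one, nsmul_eq_mul,
    mul_one, probReal_univ] at h1
  have h2 : (Fintype.card (G ⧸ U) : ℝ) ≠ 0 := by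
    intro h
    rw [h, zero_mul] at h1
    exact one_ne_zero h1
  rw [key, finsum_eq_sum_of_fintype, Nat.card_eq_fintype_card]
  have h3 : μ.real (U : Set G) = (Fintype.card (G ⧸ U) : ℝ)⁻¹ := by
    rw [eq_comm, inv_eq_iff_eq_inv, ← one_div, eq_div_iff]
    · exact h1.symm
    · intro h
      rw [h, mul_zero] at h1
      exact one_ne_zero h1
  rw [h3, mul_comm]

/-- conjugation preserves the measure -/
theorem integral_conj (f : G → ℝ) (h : G) : ∫ x, f (h * x * h⁻¹) ∂μ = ∫ x, f x ∂μ := by
  have h1 : Measure.map (· * h⁻¹) μ = μ := by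
    have : IsProbabilityMeasure (Measure.map (· * h⁻¹) μ) :=
      Measure.isProbabilityMeasure_map (measurable_mul_const _).aemeasurable
    exact Measure.isHaarMeasure_eq_of_isProbabilityMeasure _ _
  have h2 := integral_mul_left_eq_self (μ := μ) (fun x => f (x * h⁻¹)) h
  rw [h2]
  have h3 := (MeasurableEquiv.mulRight h⁻¹).measurableEmbedding.integral_map (μ := μ) f
  have h4 : Measure.map (MeasurableEquiv.mulRight h⁻¹) μ = μ := h1
  rw [h4] at h3
  exact h3.symm

end

end Pool.Agent.TH375.ED
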