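import Pool.Agent.TH375.ED.Bessel

/-! The densities at countably many heights. -/

set_option autoImplicit false

namespace Pool.Agent.TH375.ED

open MeasureTheory Filter Topology NumberField IsDedekindDomain Complex ComplexConjugate
  Pool.Agent.W401.Cheb Pool.Agent.W540.BE Pool.Agent.W353.L1 Pool.Agent.W353.AT
  Pool.Agent.W353.SP
open Pool.Agent.W353.NF (act fixn fixn_conj fixn_inv fixn_mul_ker ker_act_open act_trans cz abs_cz)
open Pool.Agent.H341R2 (lam lam_tendsto)

section
variable {K : Type} [Field K] [NumberField K]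

theorem nf_inf (F M : IntermediateField K (AlgebraicClosure K)) [NumberField F] :
    NumberField (F ⊓ M : IntermediateField K (AlgebraicClosure K)) := by
  have hfd : FiniteDimensional K F := FiniteDimensional.right ℚ K F
  have hle : F ⊓ M ≤ F := inf_le_left
  have hfd' : FiniteDimensional K (F ⊓ M : IntermediateField K (AlgebraicClosure K)) :=
    FiniteDimensional.of_injective (IntermediateField.inclusion hle).toLinearMap
      (IntermediateField.inclusion_injective hle)
  exact NumberField.of_module_finite K _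

theorem finrank_inf_le (F M : IntermediateField K (AlgebraicClosure K)) [NumberField F] :
    Module.finrank K (F ⊓ M : IntermediateField K (AlgebraicClosure K)) ≤ Module.finrank K F := by
  have hfd : FiniteDimensional K F := FiniteDimensional.right ℚ K F
  have hle : F ⊓ M ≤ F := inf_le_left
  exact LinearMap.finrank_le_finrank_of_injective
    (f := (IntermediateField.inclusion hle).toLinearMap) (IntermediateField.inclusion_injective hle)

theorem card_emb (F : IntermediateField K (AlgebraicClosure K)) [NumberField F] :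
    Nat.card (F →ₐ[K] AlgebraicClosure K) = Module.finrank K F := by
  have hfd : FiniteDimensional K F := FiniteDimensional.right ℚ K F
  rw [Nat.card_eq_fintype_card]
  exact AlgHom.card K F (AlgebraicClosure K)

variable [MeasurableSpace (GK K)] [BorelSpace (GK K)] (μ : Measure (GK K)) [μ.IsHaarMeasure]
  [IsProbabilityMeasure μ]

/-- the measure of the absolute Galois group of `F` -/
theorem card_mul (F : IntermediateField K (AlgebraicClosure K)) [NumberField F] :
    (Module.finrank K F : ℝ) * μ.real (F.fixingSubgroup : Set (GK K)) = 1 := by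
  classical
  set S : Set (GK K) := (F.fixingSubgroup : Set (GK K)) with hS
  have hfd : FiniteDimensional K F := FiniteDimensional.right ℚ K F
  have hopen : IsOpen S := IntermediateField.fixingSubgroup_isOpen F
  let _ : Fintype (F →ₐ[K] AlgebraicClosure K) := Fintype.ofFinite _
  set B : (F →ₐ[K] AlgebraicClosure K) → Set (GK K) := fun i => {g | act K F g F.val = i}
    with hB
  have hBt : ∀ i, ∃ h : GK K, B i = (fun g => h * g) ⁻¹' S := by
    intro i
    obtain ⟨h, hh⟩ := act_trans K F i F.val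
    refine ⟨h, ?_⟩
    ext g
    rw [Set.mem_preimage]
    change act K F g F.val = i ↔ h * g ∈ F.fixingSubgroup
    rw [← fixing_iff, map_mul, Equiv.Perm.mul_apply]
    constructor
    · intro h3
      rw [h3, hh]
    · intro h3
      exact (act K F h).injective (h3.trans hh.symm)
  have hBm : ∀ i, MeasurableSet (B i) := by
    intro i
    obtain ⟨h, hh⟩ := hBt i
    rw [hh]
    exact (hopen.preimage (by fun_prop)).measurableSet
  have hBμ : ∀ i, μ.real (B i) = μ.real S := by
    intro i
    obtain ⟨h, hh⟩ := hBt i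
    rw [hh, measureReal_def, measureReal_def, measure_preimage_mul]
  have h1 : ∫ _g : GK K, (1 : ℝ) ∂μ = ∑ i, ∫ g, (B i).indicator (fun _ => (1 : ℝ)) g ∂μ := by
    rw [← integral_finsetSum]
    · refine integral_congr_ae (ae_of_all _ fun g => ?_)
      change (1 : ℝ) = ∑ i, (B i).indicator (fun _ => (1 : ℝ)) g
      rw [Finset.sum_eq_single (act K F g F.val)]
      · rw [Set.indicator_of_mem]
        rfl
      · intro i _ hi
        rw [Set.indicator_of_notMem]
        exact fun h => hi h.symm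
      · intro h
        exact absurd (Finset.mem_univ _) h
    · intro i _
      exact (integrable_const _).indicator (hBm i)
  rw [integral_const, probReal_univ, smul_eq_mul, mul_one] at h1
  have h2 : ∀ i, ∫ g, (B i).indicator (fun _ => (1 : ℝ)) g ∂μ = μ.real S := by
    intro i
    rw [integral_indicator_const _ (hBm i), hBμ, smul_eq_mul, mul_one]
  have h3 := card_emb F
  rw [Finset.sum_congr rfl fun i _ => h2 i, Finset.sum_const, Finset.card_univ, nsmul_eq_mul,
    ← Nat.card_eq_fintype_card, h3] at h1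
  exact h1.symm

/-- the mean value over `F` is bounded by the mean square -/
theorem avg_sq_le (F : IntermediateField K (AlgebraicClosure K)) [NumberField F]
    {θ : GK K → ℝ} (hm : Measurable θ) {c : ℝ} (hb : ∀ g, |θ g| ≤ c) :
    (⨍ g in (F.fixingSubgroup : Set (GK K)), θ g ∂μ) ^ 2 ≤
      Module.finrank K F * ∫ g, θ g ^ 2 ∂μ := by
  set S : Set (GK K) := (F.fixingSubgroup : Set (GK K)) with hS
  have hfd : FiniteDimensional K F := FiniteDimensional.right ℚ K F
  have hmS : MeasurableSet S := (IntermediateField.fixingSubgroup_isOpen F).measurableSet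
  have hcard := card_mul μ F
  rw [← hS] at hcard
  set a : ℝ := ⨍ g in S, θ g ∂μ with ha
  set r : ℝ := μ.real S with hr
  have hr0 : 0 < r := by
    refine lt_of_le_of_ne measureReal_nonneg fun h => ?_
    rw [← h, mul_zero] at hcard
    exact zero_ne_one hcard
  have hI : ∫ g in S, θ g ∂μ = r * a := by
    rw [ha, setAverage_eq, smul_eq_mul, ← mul_assoc, mul_inv_cancel₀ hr0.ne', one_mul]
  have hint : Integrable θ μ := Integrable.of_bound hm.aestronglyMeasurable c (ae_of_all _ hb)
  have hint2 : Integrable (fun g => θ g ^ 2) μ := by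
    refine Integrable.of_bound (hm.pow_const 2).aestronglyMeasurable (c ^ 2) (ae_of_all _ fun g => ?_)
    rw [Real.norm_eq_abs, abs_pow]
    exact pow_le_pow_left₀ (abs_nonneg _) (hb g) 2
  have h1 : 0 ≤ ∫ g in S, (θ g - a) ^ 2 ∂μ := integral_nonneg fun g => sq_nonneg _
  have h2 : ∫ g in S, (θ g - a) ^ 2 ∂μ = (∫ g in S, θ g ^ 2 ∂μ) - r * a ^ 2 := by
    have e : (fun g => (θ g - a) ^ 2) = fun g => (θ g ^ 2 - 2 * a * θ g) + a ^ 2 := by
      funext g
      ring
    rw [e, integral_add, integral_sub, integral_const_mul, hI, integral_const]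
    · rw [measureReal_restrict_apply_univ, smul_eq_mul, ← hr]
      ring
    · exact hint2.integrableOn
    · exact (hint.const_mul _).integrableOn
    · exact (hint2.sub (hint.const_mul _)).integrableOn
    · exact (integrable_const _)
  have h3 : ∫ g in S, θ g ^ 2 ∂μ ≤ ∫ g, θ g ^ 2 ∂μ :=
    setIntegral_le_integral hint2 (ae_of_all _ fun g => sq_nonneg _)
  have h4 : (Module.finrank K F : ℝ) = r⁻¹ := eq_inv_of_mul_eq_one_left hcard
  rw [h4]
  have h5 : r * a ^ 2 ≤ ∫ g, θ g ^ 2 ∂μ := by linarith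
  calc a ^ 2 = r⁻¹ * (r * a ^ 2) := by
        rw [← mul_assoc, inv_mul_cancel₀ hr0.ne', one_mul]
    _ ≤ r⁻¹ * ∫ g, θ g ^ 2 ∂μ := mul_le_mul_of_nonneg_left h5 (inv_nonneg.2 hr0.le)

/-- **The densities at countably many heights.** -/
theorem exists_densities {T : HeightOneSpectrum (𝓞 K) → ℝ} {N : ℝ} (hN : 0 ≤ N)
    (hT : ∀ v, |T v| ≤ N) {τ : ℕ → ℝ} (hτ0 : ∀ n, 0 ≤ τ n) (hτ : Function.Injective τ)
    (σ : HeightOneSpectrum (𝓞 K) → GK K) (hσ : ∀ v, IsFrob v (σ v)) {e : ℕ → ℝ}
    (he : Tendsto e atTop (𝓝[>] 0)) :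
    ∃ φ : ℕ → ℕ, StrictMono φ ∧ ∃ θ : ℕ → GK K → ℝ,
      (∀ n, Measurable (θ n) ∧ (∀ g, |θ n g| ≤ cst N (τ n)) ∧
        (∀ g h, θ n (h * g * h⁻¹) = θ n g) ∧ ∀ g, θ n g⁻¹ = θ n g) ∧
      (∀ (n : ℕ) (f : GK K → ℝ), EC f → Tendsto
        (fun j => ED K (e (φ j)) fun v => T v * cz (τ n) v * f (σ v)) atTop
          (𝓝 (∫ g, θ n g * f g ∂μ))) ∧
      (∀ S : Finset ℕ, ∑ n ∈ S, wt (τ n) * ∫ g, θ n g ^ 2 ∂μ ≤ N ^ 2) ∧
      ∀ (c : ℕ) (η : ℝ), 0 < η → ∃ M : IntermediateField K (AlgebraicClosure K),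
        FiniteDimensional K M ∧ IsGalois K M ∧
        ∀ (n : ℕ) (F : IntermediateField K (AlgebraicClosure K)) [NumberField F],
          Module.finrank K F ≤ c →
            |(⨍ g in (F.fixingSubgroup : Set (GK K)), θ n g ∂μ) -
              ⨍ g in ((F ⊓ M : IntermediateField K (AlgebraicClosure K)).fixingSubgroup :
                Set (GK K)), θ n g ∂μ| < η := by
  classical
  set T' : ℕ → HeightOneSpectrum (𝓞 K) → ℝ := fun n v => T v * cz (τ n) v with hT'
  have hT'N : ∀ n v, |T' n v| ≤ N := by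
    intro n v
    rw [hT']
    simp only
    rw [abs_mul]
    calc |T v| * |cz (τ n) v| ≤ N * 1 := mul_le_mul (hT v) (abs_cz _ v) (abs_nonneg _) hN
      _ = N := mul_one _
  obtain ⟨φ, hφ, hconv⟩ := exists_subN (mnD K) σ (T := T') (fun n => ⟨N, hT'N n⟩) he
  have hz : Tendsto (fun j => e (φ j)) atTop (𝓝[>] 0) := he.comp hφ.tendsto_atTop
  have h' : Mn atTop fun j => ED K (e (φ j)) := (mnD K).comp hz
  have hex : ∀ (n : ℕ) (f : V (GK K)), ∃ m : ℝ,
      Hs atTop (fun j => ED K (e (φ j))) (fun v => T' n v * f.1 (σ v)) m := by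
    intro n f
    obtain ⟨U, hU, hl⟩ := f.2.lev
    exact hconv n U hU f.1 hl
  choose l hl using hex
  have hth : ∀ n : ℕ, ∃ θ : GK K → ℝ, Measurable θ ∧ (∀ g, |θ g| ≤ cst N (τ n)) ∧
      (∀ g h, θ (h * g * h⁻¹) = θ g) ∧ (∀ g, θ g⁻¹ = θ g) ∧
      (∀ f : V (GK K), l n f = ∫ x, θ x * f.1 x ∂μ) ∧
      ∀ δ : ℝ, 0 < δ → ∃ f : V (GK K), ∫ x, (θ x - f.1 x) ^ 2 ∂μ < δ := by
    intro n
    let L : V (GK K) →ₗ[ℝ] ℝ :=
      { toFun := l n
        map_add' := fun f g => (hl n (f + g)).unique (h'.hsAdd (hl n f) (hl n g)) fun v => by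
          change T' n v * (f.1 (σ v) + g.1 (σ v)) = _
          ring
        map_smul' := fun a f => (hl n (a • f)).unique (h'.hsMul (hl n f) a) fun v => by
          change T' n v * (a * f.1 (σ v)) = _
          ring }
    obtain ⟨θ, h1, h2, h3, h4, h5, h6⟩ := density2 μ L (cst_nonneg hN (τ n)) fun f =>
      l1_bound μ hT (τ n) σ hσ hz f.2 (hl n f)
    exact ⟨θ, h1, h2, h3, h4, h5, h6⟩
  choose θ h1 h2 h3 h4 h5 h6 using hth
  -- integrability
  have hintp : ∀ (n : ℕ) (f : V (GK K)), Integrable (fun g => θ n g * f.1 g) μ := by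
    intro n f
    obtain ⟨C, hC⟩ := f.2.bdd
    refine Integrable.of_bound ((h1 n).mul f.2.cont.measurable).aestronglyMeasurable
      (cst N (τ n) * C) (ae_of_all _ fun g => ?_)
    rw [Real.norm_eq_abs, abs_mul]
    exact mul_le_mul (h2 n g) (hC g) (abs_nonneg _) (cst_nonneg hN _)
  have hint2 : ∀ n, Integrable (fun g => θ n g ^ 2) μ := by
    intro n
    refine Integrable.of_bound ((h1 n).pow_const 2).aestronglyMeasurable (cst N (τ n) ^ 2)
      (ae_of_all _ fun g => ?_)
    rw [Real.norm_eq_abs, abs_pow]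
    exact pow_le_pow_left₀ (abs_nonneg _) (h2 n g) 2
  -- Bessel
  have hBess : ∀ S : Finset ℕ, ∑ n ∈ S, wt (τ n) * ∫ g, θ n g ^ 2 ∂μ ≤ N ^ 2 := by
    intro S
    refine le_of_forall_pos_le_add fun η hη => ?_
    have hδ : 0 < η / (2 * (S.card + 1)) := by positivity
    choose f hf using fun n => h6 n _ hδ
    have h7 := bessel_fin μ hT hτ0 hτ σ hσ hz S (f := fun n => (f n).1) (fun n => (f n).2)
      (a := fun n => l n (f n)) (fun n _ => hl n (f n))
    have h8 : ∀ n ∈ S, wt (τ n) * ∫ g, θ n g ^ 2 ∂μ ≤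
        wt (τ n) * (2 * l n (f n) - ∫ g, (f n).1 g ^ 2 ∂μ) + η / (S.card + 1) := by
      intro n _
      have e1 : ∫ g, (θ n g - (f n).1 g) ^ 2 ∂μ =
          ∫ g, θ n g ^ 2 ∂μ - 2 * l n (f n) + ∫ g, (f n).1 g ^ 2 ∂μ := by
        have e : (fun g => (θ n g - (f n).1 g) ^ 2) =
            fun g => (θ n g ^ 2 - 2 * (θ n g * (f n).1 g)) + (f n).1 g ^ 2 := by
          funext g
          ring
        rw [e, integral_add, integral_sub, integral_const_mul, h5]
        · exact hint2 n
        · exact (hintp n (f n)).const_mul 2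
        · exact (hint2 n).sub ((hintp n (f n)).const_mul 2)
        · exact ((f n).2.comp fun a => a ^ 2).integrable μ
      have h9 := hf n
      rw [e1] at h9
      have h10 : wt (τ n) ≤ 2 := by
        unfold wt
        split_ifs <;> norm_num
      have h11 := wt_pos (τ n)
      have h12 : wt (τ n) * (∫ g, θ n g ^ 2 ∂μ - (2 * l n (f n) - ∫ g, (f n).1 g ^ 2 ∂μ)) ≤
          2 * (η / (2 * (S.card + 1))) := by
        have h13 : ∫ g, θ n g ^ 2 ∂μ - (2 * l n (f n) - ∫ g, (f n).1 g ^ 2 ∂μ) ≤
            η / (2 * (S.card + 1)) := by linarith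
        calc wt (τ n) * (∫ g, θ n g ^ 2 ∂μ - (2 * l n (f n) - ∫ g, (f n).1 g ^ 2 ∂μ))
            ≤ wt (τ n) * (η / (2 * (S.card + 1))) := mul_le_mul_of_nonneg_left h13 h11.le
          _ ≤ 2 * (η / (2 * (S.card + 1))) := mul_le_mul_of_nonneg_right h10 hδ.le
      have h14 : 2 * (η / (2 * (S.card + 1 : ℝ))) = η / (S.card + 1) := by
        field_simp
      rw [h14, mul_sub] at h12
      linarith
    refine (Finset.sum_le_sum h8).trans ?_
    rw [Finset.sum_add_distrib, Finset.sum_const, nsmul_eq_mul]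
    have h9 : (S.card : ℝ) * (η / (S.card + 1)) ≤ η := by
      rw [mul_div_assoc', div_le_iff₀ (by positivity)]
      nlinarith
    linarith
  refine ⟨φ, hφ, θ, fun n => ⟨h1 n, h2 n, h3 n, h4 n⟩, fun n f hf => ?_, hBess,
    fun c η hη => ?_⟩
  · have h7 := (hl n ⟨f, hf⟩).2
    rw [h5 n ⟨f, hf⟩] at h7
    exact h7
  -- one governing field
  set Q : ℕ → ℝ := fun n => ∫ g, θ n g ^ 2 ∂μ with hQ
  have hQ0 : ∀ n, 0 ≤ Q n := fun n => integral_nonneg fun g => sq_nonneg _
  have hQs : Summable Q := by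
    refine summable_of_sum_le (c := N ^ 2) hQ0 fun S => ?_
    refine (Finset.sum_le_sum fun n _ => ?_).trans (hBess S)
    have h10 : 1 ≤ wt (τ n) := by
      unfold wt
      split_ifs <;> norm_num
    have := hQ0 n
    nlinarith
  set δ : ℝ := (η / 2) ^ 2 / (c + 1) with hδ
  have hδ0 : 0 < δ := by positivity
  have hfin : {n | ¬ Q n < δ}.Finite := by
    have h7 := (hQs.tendsto_cofinite_zero).eventually_lt_const hδ0
    rwa [Filter.eventually_cofinite] at h7
  have key : ∀ (n : ℕ), ∃ M : IntermediateField K (AlgebraicClosure K),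
      FiniteDimensional K M ∧ IsGalois K M ∧
      ∀ (F : IntermediateField K (AlgebraicClosure K)) [NumberField F],
        Module.finrank K F ≤ c →
          |(⨍ g in (F.fixingSubgroup : Set (GK K)), θ n g ∂μ) -
            ⨍ g in ((F ⊓ M : IntermediateField K (AlgebraicClosure K)).fixingSubgroup :
              Set (GK K)), θ n g ∂μ| < η / 2 := by
    intro n
    obtain ⟨zF, zA, h6', -, -, -, h10⟩ := spectral h' hσ hN (hT'N n) (hconv n)
    obtain ⟨M, hM1, hM2, hM3⟩ := h10 c (η / 2) (by positivity)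
    refine ⟨M, hM1, hM2, fun F _ hF => ?_⟩
    have hnf := nf_inf F M
    have key : ∀ (F' : IntermediateField K (AlgebraicClosure K)) [NumberField F'],
        zF F' = ⨍ g in (F'.fixingSubgroup : Set (GK K)), θ n g ∂μ := by
      intro F' _
      rw [← fix_avg μ F' (h1 n) (h2 n) (h3 n)]
      have h11 := h5 n ⟨_, ec_fixn F'⟩
      rw [← h11]
      exact (h6' F').unique (hl n ⟨_, ec_fixn F'⟩) fun v => rfl
    rw [← key F, ← key (F ⊓ M)]
    exact hM3 F hF
  choose Mn hMn1 hMn2 hMn3 using key
  set B : Finset ℕ := hfin.toFinset with hB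
  set M : IntermediateField K (AlgebraicClosure K) := ⨆ n : B, Mn n with hM
  have hMfd : FiniteDimensional K M := by
    have : ∀ n : B, FiniteDimensional K (Mn n) := fun n => hMn1 n
    exact IntermediateField.finiteDimensional_iSup_of_finite
  have hMnorm : Normal K M := by
    have : ∀ n : B, Normal K (Mn n) := fun n => (hMn2 n).to_normal
    exact IntermediateField.normal_iSup K _ _
  have hMgal : IsGalois K M := ⟨⟩
  refine ⟨M, hMfd, hMgal, fun n F _ hF => ?_⟩
  have hnf := nf_inf F M
  have hFM : Module.finrank K (F ⊓ M : IntermediateField K (AlgebraicClosure K)) ≤ c :=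
    (finrank_inf_le F M).trans hF
  by_cases hn : Q n < δ
  · -- small mean square
    have hsmall : ∀ (F' : IntermediateField K (AlgebraicClosure K)) [NumberField F'],
        Module.finrank K F' ≤ c →
        |⨍ g in (F'.fixingSubgroup : Set (GK K)), θ n g ∂μ| < η / 2 := by
      intro F' _ hF'
      have h7 := avg_sq_le μ F' (h1 n) (h2 n)
      refine abs_lt_of_sq_lt_sq ?_ (by positivity)
      have h8 : (Module.finrank K F' : ℝ) * Q n ≤ c * Q n :=
        mul_le_mul_of_nonneg_right (by exact_mod_cast hF') (hQ0 n)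
      have h9 : (c : ℝ) * Q n < (η / 2) ^ 2 := by
        have h10 : ((c : ℝ) + 1) * δ = (η / 2) ^ 2 := by
          rw [hδ]
          field_simp
        have h11 := hQ0 n
        have h12 : (0 : ℝ) < (c : ℝ) + 1 := by positivity
        nlinarith
      exact (h7.trans h8).trans_lt h9
    have h7 := hsmall F hF
    have h8 := hsmall (F ⊓ M) hFM
    refine (abs_sub _ _).trans_lt ?_
    linarith
  · have hnB : n ∈ B := by
      rw [hB, Set.Finite.mem_toFinset]
      exact hn
    have hle : Mn n ≤ M := le_iSup (fun n : B => Mn n) ⟨n, hnB⟩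
    have h7 := hMn3 n F hF
    have h8 := hMn3 n (F ⊓ M) hFM
    have e : F ⊓ M ⊓ Mn n = F ⊓ Mn n := by
      rw [inf_assoc, inf_eq_right.2 hle]
    rw [e] at h8
    have h9 := abs_sub_le (⨍ g in (F.fixingSubgroup : Set (GK K)), θ n g ∂μ)
      (⨍ g in ((F ⊓ Mn n : IntermediateField K (AlgebraicClosure K)).fixingSubgroup :
        Set (GK K)), θ n g ∂μ)
      (⨍ g in ((F ⊓ M : IntermediateField K (AlgebraicClosure K)).fixingSubgroup :
        Set (GK K)), θ n g ∂μ)
    have h10 := abs_sub_comm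
      (⨍ g in ((F ⊓ Mn n : IntermediateField K (AlgebraicClosure K)).fixingSubgroup :
        Set (GK K)), θ n g ∂μ)
      (⨍ g in ((F ⊓ M : IntermediateField K (AlgebraicClosure K)).fixingSubgroup :
        Set (GK K)), θ n g ∂μ)
    linarith

end

end Pool.Agent.TH375.ED
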