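import Pool.Agent.TH375.ED.Abs

/-! The density of a bounded functional. -/

set_option autoImplicit false

namespace Pool.Agent.TH375.ED

open MeasureTheory Filter Topology
open scoped RealInnerProductSpace

section
variable {G : Type} [Group G] [TopologicalSpace G] [IsTopologicalGroup G] [CompactSpace G]
  [MeasurableSpace G] [BorelSpace G] (μ : Measure G) [IsProbabilityMeasure μ]

/-- the representing vector -/
theorem riesz (l : V G →ₗ[ℝ] ℝ) {c : ℝ} (hc : 0 ≤ c)
    (hb : ∀ f : V G, |l f| ≤ c * ∫ x, |f.1 x| ∂μ) :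
    ∃ y : Lp ℝ 2 μ, (∀ f : V G, ⟪y, TL μ f⟫ = l f) ∧
      ∃ f : ℕ → V G, Tendsto (fun n => TL μ (f n)) atTop (𝓝 y) := by
  have hb' : ∀ f : V G, |l f| ≤ c * ‖TL μ f‖ := fun f =>
    (hb f).trans (mul_le_mul_of_nonneg_left (L1_le μ f) hc)
  have hker : LinearMap.ker (TL μ (G := G)) ≤ LinearMap.ker l := by
    intro f hf
    rw [LinearMap.mem_ker] at hf ⊢
    have h1 := hb' f
    rw [hf, norm_zero, mul_zero] at h1
    exact abs_nonpos_iff.1 h1
  set l1 : LinearMap.range (TL μ (G := G)) →ₗ[ℝ] ℝ :=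
    ((LinearMap.ker (TL μ (G := G))).liftQ l hker).comp
      (TL μ (G := G)).quotKerEquivRange.symm.toLinearMap with hl1
  have h1 : ∀ f : V G, l1 ⟨TL μ f, LinearMap.mem_range_self _ f⟩ = l f := by
    intro f
    rw [hl1]
    simp only [LinearMap.comp_apply, LinearEquiv.coe_coe]
    have h2 : (TL μ (G := G)).quotKerEquivRange.symm ⟨TL μ f, LinearMap.mem_range_self _ f⟩ =
        (LinearMap.ker (TL μ (G := G))).mkQ f := by
      rw [LinearEquiv.symm_apply_eq]
      rfl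
    rw [h2, Submodule.mkQ_apply, Submodule.liftQ_apply]
  have h2 : ∀ w : LinearMap.range (TL μ (G := G)), ‖l1 w‖ ≤ c * ‖w‖ := by
    rintro ⟨w, f, rfl⟩
    rw [h1]
    exact hb' f
  obtain ⟨g, hg, -⟩ := _root_.exists_extension_norm_eq _ (l1.mkContinuous c h2)
  set y : Lp ℝ 2 μ := (InnerProductSpace.toDual ℝ (Lp ℝ 2 μ)).symm g with hy
  set W : Submodule ℝ (Lp ℝ 2 μ) := (LinearMap.range (TL μ (G := G))).topologicalClosure with hW
  have hWc : IsComplete (W : Set (Lp ℝ 2 μ)) :=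
    (Submodule.isClosed_topologicalClosure _).isComplete
  have : CompleteSpace W := hWc.completeSpace_coe
  set y₀ : W := W.orthogonalProjectionOnto y with hy₀
  refine ⟨y₀, fun f => ?_, ?_⟩
  · have hm : TL μ f ∈ W := Submodule.le_topologicalClosure _ (LinearMap.mem_range_self _ f)
    have h3 : ⟪(y₀ : Lp ℝ 2 μ), TL μ f⟫ = ⟪y, TL μ f⟫ := by
      exact Submodule.inner_orthogonalProjectionOnto_eq_of_mem_right (K := W) ⟨TL μ f, hm⟩ y
    rw [h3, hy, InnerProductSpace.toDual_symm_apply]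
    have h4 := hg ⟨TL μ f, LinearMap.mem_range_self _ f⟩
    rw [LinearMap.mkContinuous_apply, h1] at h4
    exact h4
  · have h3 : (y₀ : Lp ℝ 2 μ) ∈ closure (LinearMap.range (TL μ (G := G)) : Set (Lp ℝ 2 μ)) :=
      y₀.2
    obtain ⟨x, hx, hlim⟩ := mem_closure_iff_seq_limit.1 h3
    choose f hf using hx
    refine ⟨f, ?_⟩
    simp only [hf]
    exact hlim

/-- the upper bound -/
theorem upper {c : ℝ} {y : Lp ℝ 2 μ} {f : ℕ → V G}
    (hf : Tendsto (fun n => TL μ (f n)) atTop (𝓝 y))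
    (h : ∀ g : V G, ⟪y, TL μ g⟫ ≤ c * ∫ x, |g.1 x| ∂μ) : ∀ᵐ x ∂μ, (y : G → ℝ) x ≤ c := by
  set C : V G := ⟨fun _ => c, EC.const c⟩ with hC
  set p : ℕ → V G := fun n => ⟨fun x => max ((f n).1 x - c) 0,
    EC.comp (f n).2 fun a => max (a - c) 0⟩ with hp
  have h1 : ∀ n, TL μ (p n) = Lp.posPart (TL μ (f n) - TL μ C) := by
    intro n
    apply Lp.ext
    filter_upwards [TL_ae μ (p n), Lp.coeFn_posPart (TL μ (f n) - TL μ C),
      Lp.coeFn_sub (TL μ (f n)) (TL μ C), TL_ae μ (f n), TL_ae μ C] with x h1 h2 h3 h4 h5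
    rw [h1, h2, h3, Pi.sub_apply, h4, h5]
  have h2 : Tendsto (fun n => TL μ (p n)) atTop (𝓝 (Lp.posPart (y - TL μ C))) := by
    simp only [h1]
    exact (Lp.continuous_posPart.tendsto _).comp (hf.sub tendsto_const_nhds)
  have h3 : ∀ n, ⟪y - TL μ C, TL μ (p n)⟫ ≤ 0 := by
    intro n
    have h4 := h (p n)
    have h5 : ⟪TL μ C, TL μ (p n)⟫ = c * ∫ x, |(p n).1 x| ∂μ := by
      rw [inner_TL, ← integral_const_mul]
      refine integral_congr_ae ?_
      filter_upwards [TL_ae μ C] with x hx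
      rw [hx]
      change c * (p n).1 x = c * |(p n).1 x|
      rw [abs_of_nonneg]
      exact le_max_right _ _
    rw [inner_sub_left, h5]
    linarith
  have h4 : ⟪y - TL μ C, Lp.posPart (y - TL μ C)⟫ ≤ 0 :=
    le_of_tendsto ((tendsto_const_nhds (x := y - TL μ C)).inner h2) (Eventually.of_forall h3)
  set z : Lp ℝ 2 μ := y - TL μ C with hz
  have h5 : ⟪z, Lp.posPart z⟫ = ‖Lp.posPart z‖ ^ 2 := by
    rw [← real_inner_self_eq_norm_sq, L2.inner_def, L2.inner_def]
    refine integral_congr_ae ?_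
    filter_upwards [Lp.coeFn_posPart z] with x hx
    rw [hx]
    change max ((z : G → ℝ) x) 0 * (z : G → ℝ) x = max ((z : G → ℝ) x) 0 * max ((z : G → ℝ) x) 0
    rcases le_total ((z : G → ℝ) x) 0 with h | h
    · rw [max_eq_right h, zero_mul, zero_mul]
    · rw [max_eq_left h]
  rw [h5] at h4
  have h6 : Lp.posPart z = 0 := by
    have : ‖Lp.posPart z‖ = 0 := by nlinarith [norm_nonneg (Lp.posPart z)]
    exact norm_eq_zero.1 this
  filter_upwards [Lp.coeFn_posPart z, Lp.coeFn_sub y (TL μ C), TL_ae μ C,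
    Lp.coeFn_zero ℝ 2 μ] with x h7 h8 h9 h10
  rw [h6, h10, Pi.zero_apply] at h7
  have h11 : (z : G → ℝ) x ≤ 0 := by
    have := le_max_left ((z : G → ℝ) x) 0
    rw [← h7] at this
    exact this
  rw [hz, h8, Pi.sub_apply, h9] at h11
  change (y : G → ℝ) x - c ≤ 0 at h11
  linarith

end

end Pool.Agent.TH375.ED
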