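import Pool.Agent.TH375.ED.Extract
import Pool.Agent.TH375.ED.Density2

/-! Convergence along a subsequence for countably many functions. -/

set_option autoImplicit false

namespace Pool.Agent.TH375.ED

open MeasureTheory Filter Topology NumberField IsDedekindDomain Complex ComplexConjugate
  Pool.Agent.W401.Cheb Pool.Agent.W540.BE Pool.Agent.W353.L1 Pool.Agent.W353.AT
  Pool.Agent.W353.SP
open Pool.Agent.W353.NF (act fixn fixn_conj fixn_inv fixn_mul_ker ker_act_open act_trans cz abs_cz)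
open Pool.Agent.H341R2 (lam lam_tendsto)

section
variable {K : Type} [Field K] [NumberField K]
variable {ι : Type} {l : Filter ι} {E : ι → (HeightOneSpectrum (𝓞 K) → ℝ) → ℝ}

/-- **A subsequence along which all mean values converge, for countably many functions.** -/
theorem exists_subN (h : Mn l E) (σ : HeightOneSpectrum (𝓞 K) → GK K)
    {T : ℕ → HeightOneSpectrum (𝓞 K) → ℝ} (hT : ∀ k, Bd (T k)) {z : ℕ → ι}
    (hz : Tendsto z atTop l) :
    ∃ φ : ℕ → ℕ, StrictMono φ ∧ ∀ k, ∀ U : Subgroup (GK K), IsOpen (U : Set (GK K)) →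
      ∀ f : GK K → ℝ, (∀ g, ∀ u ∈ U, f (g * u) = f g) →
      ∃ m : ℝ, Hs atTop (fun n => E (z (φ n))) (fun v => T k v * f (σ v)) m := by
  classical
  let I : Type := Σ M : {M : IntermediateField K (AlgebraicClosure K) // FiniteDimensional K M},
    GK K ⧸ M.1.fixingSubgroup
  have hfinq : ∀ M : {M : IntermediateField K (AlgebraicClosure K) // FiniteDimensional K M},
      Finite (GK K ⧸ M.1.fixingSubgroup) := by
    intro M
    have := M.2
    exact Subgroup.quotient_finite_of_isOpen _ (IntermediateField.fixingSubgroup_isOpen M.1)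
  have hc := countable_fields (K := K)
  have hI : Countable I := by
    have : ∀ M : {M : IntermediateField K (AlgebraicClosure K) // FiniteDimensional K M},
      Countable (GK K ⧸ M.1.fixingSubgroup) := fun M => by
        have := hfinq M
        infer_instance
    infer_instance
  let e : I → HeightOneSpectrum (𝓞 K) → ℝ := fun i v =>
    if (QuotientGroup.mk (σ v) : GK K ⧸ i.1.1.fixingSubgroup) = i.2 then 1 else 0
  have he : ∀ i, Bd (e i) := fun i => ⟨1, fun v => by
    change |if (QuotientGroup.mk (σ v) : GK K ⧸ i.1.1.fixingSubgroup) = i.2 then (1 : ℝ)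
      else 0| ≤ 1
    split_ifs <;> simp⟩
  have hM := h.comp hz
  obtain ⟨φ, hφ, ρ, hρ⟩ := diag (fun (i : ℕ × I) n => E (z n) fun v => T i.1 v * e i.2 v)
    (fun i => by
      obtain ⟨B, hB⟩ := (hT i.1).mul (he i.2)
      exact ⟨2 * |B|, hM.bound hB⟩)
  refine ⟨φ, hφ, fun k U hU f hf => ?_⟩
  have hM' : Mn atTop fun n => E (z (φ n)) := h.comp (hz.comp hφ.tendsto_atTop)
  set M : IntermediateField K (AlgebraicClosure K) := IntermediateField.fixedField U with hMd
  have h1 : M.fixingSubgroup = U :=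
    InfiniteGalois.fixingSubgroup_fixedField ⟨U, U.isClosed_of_isOpen hU⟩
  have h2 : FiniteDimensional K M := by
    rw [← InfiniteGalois.isOpen_iff_finite, h1]
    exact hU
  have hq := hfinq ⟨M, h2⟩
  let _ : Fintype (GK K ⧸ M.fixingSubgroup) := Fintype.ofFinite _
  refine ⟨∑ q : GK K ⧸ M.fixingSubgroup, f q.out * ρ ⟨k, ⟨⟨M, h2⟩, q⟩⟩, ?_⟩
  have h3 : ∀ q : GK K ⧸ M.fixingSubgroup, Hs atTop (fun n => E (z (φ n)))
      (fun v => T k v * e ⟨⟨M, h2⟩, q⟩ v) (ρ ⟨k, ⟨⟨M, h2⟩, q⟩⟩) := fun q =>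
    ⟨(hT k).mul (he _), hρ ⟨k, ⟨⟨M, h2⟩, q⟩⟩⟩
  refine (hM'.hsSum Finset.univ fun q _ => hM'.hsMul (h3 q) (f q.out)).congr (fun v => ?_) rfl
  have h4 : ∀ q : GK K ⧸ M.fixingSubgroup, f q.out * (T k v * e ⟨⟨M, h2⟩, q⟩ v) =
      if (QuotientGroup.mk (σ v) : GK K ⧸ M.fixingSubgroup) = q then T k v * f (σ v) else 0 := by
    intro q
    change f q.out * (T k v * (if (QuotientGroup.mk (σ v) : GK K ⧸ M.fixingSubgroup) = q
      then 1 else 0)) = _
    by_cases hqv : (QuotientGroup.mk (σ v) : GK K ⧸ M.fixingSubgroup) = q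
    · rw [if_pos hqv, if_pos hqv, mul_one, mul_comm, ← hqv]
      obtain ⟨u, hu⟩ := QuotientGroup.mk_out_eq_mul M.fixingSubgroup (σ v)
      rw [hu, hf (σ v) u (by rw [← h1]; exact u.2)]
    · rw [if_neg hqv, if_neg hqv, mul_zero, mul_zero]
  rw [Finset.sum_congr rfl fun q _ => h4 q, Finset.sum_ite_eq, if_pos (Finset.mem_univ _)]

end

end Pool.Agent.TH375.ED
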