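import Pool.Agent.TH375.ED.Var

/-! The densities of the defects of Tate's conjecture on the pole: proofs. -/

set_option autoImplicit false

namespace Pool.Agent.TH375.ED

open MeasureTheory Filter Topology NumberField IsDedekindDomain Complex ComplexConjugate
  Polynomial
  Pool.Agent.W401.Cheb Pool.Agent.W540.BE Pool.Agent.W353.L1 Pool.Agent.W353.AT
  Pool.Agent.W353.SP Pool.Agent.TH375.ES
open Pool.Agent.W353.NF (act fixn fixn_conj fixn_inv fixn_mul_ker ker_act_open act_trans cz abs_cz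
  TT size_fix vx fixn_le)
open Pool.Agent.W353.TP (HX)
open Pool.Agent.W353.PV (tF size_X syX syX_real)
open Pool.Agent.W353.EF (LFun)
open Pool.Agent.W353.EH (edgePoint)
open Pool.Agent.W353.TD (ch rank IsPart tF_sub_le)

section
variable {K : Type} [Field K] [NumberField K] {V : Type} [AddCommGroup V] [Module ℚ V]
  [FiniteDimensional ℚ V] {ρ : Representation ℚ (GK K) V}

/-- rational characters are even -/
theorem ch_inv (hρ : ∃ U : Subgroup (GK K), IsOpen (U : Set (GK K)) ∧ ∀ u ∈ U, ρ u = 1)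
    (g : GK K) : ch ρ g⁻¹ = ch ρ g := by
  classical
  obtain ⟨W, hW, hW1⟩ := hρ
  obtain ⟨U, hUn, hU, hle⟩ := exists_normal hW
  have hfin : Finite (GK K ⧸ U) := Subgroup.quotient_finite_of_isOpen U hU
  set b := Module.finBasis ℚ V
  set A : Matrix _ _ ℚ := LinearMap.toMatrix b b (ρ g) with hA
  set B : Matrix _ _ ℚ := LinearMap.toMatrix b b (ρ g⁻¹) with hB
  have hAB : A * B = 1 := by
    rw [hA, hB, ← LinearMap.toMatrix_mul, ← map_mul, mul_inv_cancel, map_one]
    exact LinearMap.toMatrix_one b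
  have hpos : 0 < Nat.card (GK K ⧸ U) := Nat.card_pos
  obtain ⟨k, hk⟩ : ∃ k, Nat.card (GK K ⧸ U) = k + 1 := ⟨Nat.card (GK K ⧸ U) - 1, by omega⟩
  have hg : g ^ (k + 1) ∈ U := by
    have h1 : (QuotientGroup.mk g : GK K ⧸ U) ^ Nat.card (GK K ⧸ U) = 1 := pow_card_eq_one'
    rw [hk, ← QuotientGroup.mk_pow, QuotientGroup.eq_one_iff] at h1
    exact h1
  have hρg : (ρ g) ^ (k + 1) = 1 := by
    rw [← map_pow]
    exact hW1 _ (hle hg)
  have hApow : A ^ (k + 1) = 1 := by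
    have h1 : A ^ (k + 1) = LinearMap.toMatrix b b ((ρ g) ^ (k + 1)) :=
      (map_pow (LinearMap.toMatrixAlgEquiv b) (ρ g) (k + 1)).symm
    rw [h1, hρg]
    exact LinearMap.toMatrix_one b
  set f : ℚ →+* ℂ := algebraMap ℚ ℂ with hf
  have h1 := trace_conj_matrix (f.mapMatrix A) (f.mapMatrix B)
    (by rw [← map_mul, hAB, map_one]) (k := k) (by rw [← map_pow, hApow, map_one])
  have htr : ∀ C : Matrix (Fin (Module.finrank ℚ V)) (Fin (Module.finrank ℚ V)) ℚ,
      (f.mapMatrix C).trace = ((C.trace : ℚ) : ℂ) := by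
    intro C
    exact (AddMonoidHom.map_trace f.toAddMonoidHom C).symm
  rw [htr, htr, ← Complex.ofReal_ratCast, Complex.conj_ofReal, ← Complex.ofReal_ratCast] at h1
  have h2 : ((A.trace : ℚ) : ℝ) = ((B.trace : ℚ) : ℝ) := Complex.ofReal_injective h1
  unfold ch
  rw [LinearMap.trace_eq_matrix_trace ℚ b, LinearMap.trace_eq_matrix_trace ℚ b]
  exact h2.symm

/-- the character is an even class function of finite level -/
theorem ec_ch (hρ : ∃ U : Subgroup (GK K), IsOpen (U : Set (GK K)) ∧ ∀ u ∈ U, ρ u = 1) :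
    EC fun g : GK K => ch ρ g⁻¹ := by
  obtain ⟨W, hW, hW1⟩ := hρ
  refine ⟨⟨W, hW, fun g u hu => ?_⟩, fun g h => ?_, fun g => ?_⟩
  · rw [ch_inv ⟨W, hW, hW1⟩, ch_inv ⟨W, hW, hW1⟩]
    unfold ch
    rw [map_mul, hW1 u hu, mul_one]
  · rw [ch_inv ⟨W, hW, hW1⟩, ch_inv ⟨W, hW, hW1⟩]
    have h1 := Representation.char_conj ρ g h
    unfold ch
    have h2 : LinearMap.trace ℚ V (ρ (h * g * h⁻¹)) = LinearMap.trace ℚ V (ρ g) := h1
    rw [h2]
  · rw [ch_inv ⟨W, hW, hW1⟩]

/-- off the real point the mean values of functions of finite level vanish -/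
theorem mean_off {f : GK K → ℝ} (hf : EC f) {t : ℝ} (ht : t ≠ 0)
    (σ : HeightOneSpectrum (𝓞 K) → GK K) (hσ : ∀ v, IsFrob v (σ v)) :
    Has (fun v => cz t v * f (σ v)) 0 := by
  obtain ⟨U, hUn, hU, h₁, -⟩ := common_level hf hf
  have hfin : Finite (GK K ⧸ U) := Subgroup.quotient_finite_of_isOpen U hU
  refine ((cfOf hf h₁).has_ne hU σ hσ ht).congr (fun v => ?_) rfl
  rw [cfOf_R]

end

section
variable {K : Type} [Field K] [NumberField K] {l : ℕ} {X : Set (MvPolynomial (Fin l) (𝓞 K))}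
  {d m N : ℕ} {V : Type} [AddCommGroup V] [Module ℚ V] [FiniteDimensional ℚ V]
  {ρ : Representation ℚ (GK K) V}
  [MeasurableSpace (GK K)] [BorelSpace (GK K)] (μ : Measure (GK K)) [μ.IsHaarMeasure]
  [IsProbabilityMeasure μ]

open Classical in
/-- **The densities of the defects.** -/
theorem tate_densities (hmd : m ≤ d) (hpart : IsPart X d m N ρ) {τ : ℕ → ℝ}
    (hτ0 : ∀ n, 0 ≤ τ n) (hτ : Function.Injective τ) {e : ℕ → ℝ}
    (he : Tendsto e atTop (𝓝[>] 0)) :
    ∃ φ : ℕ → ℕ, StrictMono φ ∧ ∃ θ : ℕ → GK K → ℝ,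
      (∀ k, Measurable (θ k) ∧
        (∀ g, |θ k g| ≤ cst ((N - Module.finrank ℚ V : ℕ) : ℝ) (τ k)) ∧
        (∀ g h, θ k (h * g * h⁻¹) = θ k g) ∧ ∀ g, θ k g⁻¹ = θ k g) ∧
      (∀ (k : ℕ) (t : ℝ), |t| = τ k →
        (∀ (F : IntermediateField K (AlgebraicClosure K)) [NumberField F]
          (B : HeightOneSpectrum (𝓞 F) → ℂ[X]),
          Pool.Agent.W353.EH.IsEulerSystem X d (2 * m) N t B →
          (∀ᶠ ε : ℝ in 𝓝[>] 0, LFun B (edgePoint (2 * m) t + ε) ≠ 0) ∧
          Tendsto (fun j => Pool.Agent.W353.EH.size (2 * m) t B (e (φ j))) atTop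
            (𝓝 ((if t = 0 then (rank ρ F : ℝ) else 0) -
              ⨍ g in (F.fixingSubgroup : Set (GK K)), θ k g ∂μ))) ∧
        (∀ (n : ℕ) (χ : Representation ℂ (GK K) (Fin n → ℂ)), IsArtin χ →
          ∀ B : HeightOneSpectrum (𝓞 K) → ℂ[X], IsTwistedSystem X d (2 * m) N χ t B →
          IsTwistedSystem X d (2 * m) N χ (-t) B →
          ((∀ᶠ ε : ℝ in 𝓝[>] 0, LFun B (edgePoint (2 * m) t + ε) ≠ 0) ∧
            ∀ᶠ ε : ℝ in 𝓝[>] 0, LFun B (edgePoint (2 * m) (-t) + ε) ≠ 0) ∧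
          Tendsto (fun j => (Pool.Agent.W353.EH.size (2 * m) t B (e (φ j)) +
            Pool.Agent.W353.EH.size (2 * m) (-t) B (e (φ j))) / 2)
            atTop (𝓝 ((if t = 0 then (twistRank ρ χ : ℝ) else 0) -
              ∫ g, θ k g * (χ.character g).re ∂μ)))) ∧
      (∀ S : Finset ℕ, ∑ k ∈ S, wt (τ k) * ∫ g, θ k g ^ 2 ∂μ ≤
        ((N - Module.finrank ℚ V : ℕ) : ℝ) ^ 2) ∧
      ∀ (c : ℕ) (η : ℝ), 0 < η → ∃ M : IntermediateField K (AlgebraicClosure K),
        FiniteDimensional K M ∧ IsGalois K M ∧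
        ∀ (k : ℕ) (F : IntermediateField K (AlgebraicClosure K)) [NumberField F],
          Module.finrank K F ≤ c →
            |(⨍ g in (F.fixingSubgroup : Set (GK K)), θ k g ∂μ) -
              ⨍ g in ((F ⊓ M : IntermediateField K (AlgebraicClosure K)).fixingSubgroup :
                Set (GK K)), θ k g ∂μ| < η := by
  have hi : 2 * m ≤ 2 * d := by omega
  set s : ℕ := N - Module.finrank ℚ V with hs
  choose σ hσ using exists_isFrob (F := K)
  obtain ⟨hρ, hV⟩ := hpart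
  have hgood : ∀ᶠ v in cofinite, |tF X d (2 * m) N K v - ch ρ (σ v)⁻¹| ≤ s := by
    refine hV.mono fun v hv => ?_
    obtain ⟨α, h1, h2⟩ := hv (σ v) (hσ v)
    exact tF_sub_le (ρ := ρ) hi (σ := σ v) h1 h2
  have hbad : {v | ¬ |tF X d (2 * m) N K v - ch ρ (σ v)⁻¹| ≤ s}.Finite := by
    rwa [Filter.eventually_cofinite] at hgood
  have hT : ∀ v, |tC ρ X d (2 * m) N s σ v| ≤ (s : ℝ) := fun v => abs_tC _ _ _ _ _ _ _ _
  have hTF : Bd fun v => tF X d (2 * m) N K v := ⟨N, fun v => abs_tr_le _ _ _⟩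
  obtain ⟨φ, hφ, θ', h1, h5, h6, h7⟩ := exists_densities μ (Nat.cast_nonneg s) hT hτ0 hτ σ hσ he
  have hz : Tendsto (fun j => e (φ j)) atTop (𝓝[>] 0) := he.comp hφ.tendsto_atTop
  have h' : Mn atTop fun j => ED K (e (φ j)) := (mnD K).comp hz
  have hneg : ∀ (k : ℕ) (F : IntermediateField K (AlgebraicClosure K)),
      (⨍ g in (F.fixingSubgroup : Set (GK K)), -θ' k g ∂μ) =
        -⨍ g in (F.fixingSubgroup : Set (GK K)), θ' k g ∂μ := by
    intro k F
    exact average_neg _ _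
  -- from the complement to the whole cohomology
  have key : ∀ (k : ℕ) (t : ℝ), |t| = τ k → ∀ (f : GK K → ℝ) (a : ℝ), EC f →
      (t = 0 → Hs atTop (fun j => ED K (e (φ j))) (fun v => ch ρ (σ v)⁻¹ * f (σ v)) a) →
      Tendsto (fun j => ED K (e (φ j)) fun v => tF X d (2 * m) N K v * cz (τ k) v * f (σ v)) atTop
        (𝓝 ((if t = 0 then a else 0) + ∫ g, θ' k g * f g ∂μ)) := by
    intro k t ht f a hf ha
    obtain ⟨C, hC⟩ := hf.bdd
    have hfb : Bd fun v => f (σ v) := ⟨C, fun v => hC _⟩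
    have hczb : Bd fun v => cz (K := K) (τ k) v := ⟨1, abs_cz _⟩
    have hchb : Bd fun v => ch ρ (σ v)⁻¹ := by
      obtain ⟨C', hC'⟩ := (ec_ch hρ).bdd
      exact ⟨C', fun v => hC' _⟩
    have hcomp : Hs atTop (fun j => ED K (e (φ j)))
        (fun v => tC ρ X d (2 * m) N s σ v * cz (τ k) v * f (σ v)) (∫ g, θ' k g * f g ∂μ) :=
      ⟨((Bd.mul (f := fun v => tC ρ X d (2 * m) N s σ v) ⟨s, hT⟩ hczb)).mul hfb, h5 k f hf⟩
    have hch : Hs atTop (fun j => ED K (e (φ j)))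
        (fun v => ch ρ (σ v)⁻¹ * cz (τ k) v * f (σ v)) (if t = 0 then a else 0) := by
      by_cases ht0 : t = 0
      · rw [if_pos ht0]
        have hk : τ k = 0 := by rw [← ht, ht0, abs_zero]
        refine (ha ht0).congr (fun v => ?_) rfl
        rw [hk]
        unfold cz zz
        rw [Complex.ofReal_zero, zero_mul, neg_zero, Complex.cpow_zero, Complex.one_re, mul_one]
      · rw [if_neg ht0]
        have hk : τ k ≠ 0 := by
          rw [← ht]
          exact abs_ne_zero.2 ht0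
        have h8 := mean_off ((ec_ch hρ).comp₂ hf fun x y => x * y) hk σ hσ
        refine Hs.congr (f := fun v => cz (τ k) v * (ch ρ (σ v)⁻¹ * f (σ v)))
          ⟨h8.1, h8.2.comp hz⟩ (fun v => by ring) rfl
    have hψ : Hs atTop (fun j => ED K (e (φ j))) (fun v => tF X d (2 * m) N K v * cz (τ k) v *
        f (σ v) + ((-1) * (tC ρ X d (2 * m) N s σ v * cz (τ k) v * f (σ v)) +
          (-1) * (ch ρ (σ v)⁻¹ * cz (τ k) v * f (σ v)))) 0 := by
      refine h'.hsFin (((hTF.mul hczb).mul hfb).add (((Bd.const (-1)).mul hcomp.1).add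
        ((Bd.const (-1)).mul hch.1))) (hbad.subset fun v hv => ?_)
      by_contra hcon
      rw [Set.mem_ofPred_eq, not_not] at hcon
      apply hv
      have e : tC ρ X d (2 * m) N s σ v = tF X d (2 * m) N K v - ch ρ (σ v)⁻¹ := by
        unfold tC
        rw [if_pos hcon]
      rw [e]
      ring
    have h9 := (h'.hsAdd hψ (h'.hsAdd hch hcomp)).2
    rw [zero_add] at h9
    refine h9.congr fun j => ?_
    congr 1
    funext v
    ring
  refine ⟨φ, hφ, fun k g => -θ' k g, fun k => ⟨(h1 k).1.neg, fun g => ?_, fun g h => ?_,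
    fun g => ?_⟩, fun k t ht => ⟨fun F _ B hB => ?_, fun n χ hχ B hB hB' => ?_⟩, fun S => ?_,
    fun c η hη => ?_⟩
  · rw [abs_neg]
    exact (h1 k).2.1 g
  · change -θ' k (h * g * h⁻¹) = -θ' k g
    rw [(h1 k).2.2.1]
  · change -θ' k g⁻¹ = -θ' k g
    rw [(h1 k).2.2.2]
  · obtain ⟨h2, h3, h4, -⟩ := h1 k
    have h9 := var_F hi t B hB σ hσ
    refine ⟨h9.1, ?_⟩
    have hrank : (rank ρ F : ℝ) = Module.finrank ℚ (Pool.Agent.W353.TD.inv ρ F.val.fieldRange.fixingSubgroup) := by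
      rw [Pool.Agent.W353.TD.inv_eq, IntermediateField.fieldRange_val]
      rfl
    have h10 := key k t ht _ (rank ρ F) (ec_fixn F) fun _ => by
      rw [hrank]
      exact h'.fixMean ρ hρ F.val σ hσ
    have h8 := h10.sub (h9.2.comp hz)
    rw [sub_zero, fix_avg μ F h2 h3 h4] at h8
    rw [hneg, sub_neg_eq_add]
    refine h8.congr fun j => ?_
    rw [Function.comp_apply]
    have e1 : (fun v => tF X d (2 * m) N K v * cz t v * (fixn K F (σ v) : ℝ)) =
        fun v => tF X d (2 * m) N K v * cz (τ k) v * fixn K F (σ v) := by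
      funext v
      rw [cz_abs ht]
    rw [e1]
    ring
  · obtain ⟨U, hUn, hU, hx1⟩ := exists_common (κ := Unit) (n := fun _ => n)
      (fun _ => χ) fun _ => hχ
    have hfin : Finite (GK K ⧸ U) := Subgroup.quotient_finite_of_isOpen U hU
    have h9 := tw_size hi U χ (hx1 ()) t B hB σ hσ
    have h10 := tw_size hi U χ (hx1 ()) (-t) B hB' σ hσ
    refine ⟨⟨h9.1, h10.1⟩, ?_⟩
    have hTFN : ∀ v, |tF X d (2 * m) N K v| ≤ (N : ℝ) := fun v => abs_tr_le _ _ _
    have h8 := pair_lim' hTFN χ hχ ht σ h9.2 h10.2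
    have h11 := key k t ht _ (twistRank ρ χ) (ec_char χ hχ) fun _ => by
      refine (h'.twMean ρ hρ ⟨n, χ⟩ hχ σ hσ).congr (fun v => ?_) rfl
      rw [RR_zero χ hχ]
    have h12 := h11.sub (h8.comp hz)
    rw [sub_zero] at h12
    have e2 : (if t = 0 then (twistRank ρ χ : ℝ) else 0) -
        ∫ g, (-θ' k g) * (χ.character g).re ∂μ =
        (if t = 0 then (twistRank ρ χ : ℝ) else 0) + ∫ g, θ' k g * (χ.character g).re ∂μ := by
      have e3 : (fun g => (-θ' k g) * (χ.character g).re) =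
          fun g => -(θ' k g * (χ.character g).re) := by
        funext g
        ring
      rw [e3, integral_neg, sub_neg_eq_add]
    rw [e2]
    refine h12.congr fun j => ?_
    rw [Function.comp_apply]
    ring
  · have h8 := h6 S
    refine le_trans (le_of_eq ?_) h8
    refine Finset.sum_congr rfl fun k _ => ?_
    simp only [neg_sq]
  · obtain ⟨M, hM1, hM2, hM3⟩ := h7 c η hη
    refine ⟨M, hM1, hM2, fun k F _ hF => ?_⟩
    have h8 := hM3 k F hF
    rw [hneg, hneg, ← neg_sub_neg, neg_neg, neg_neg, abs_sub_comm]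
    exact h8

end

end Pool.Agent.TH375.ED
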