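import Pool.Agent.TH375.ED.EC2

/-! The edge densities of a projective variety at countably many heights: proofs. -/

set_option autoImplicit false

namespace Pool.Agent.TH375.ED

open MeasureTheory Filter Topology NumberField IsDedekindDomain Complex ComplexConjugate
  Polynomial
  Pool.Agent.W401.Cheb Pool.Agent.W540.BE Pool.Agent.W353.L1 Pool.Agent.W353.AT
  Pool.Agent.W353.SP Pool.Agent.TH375.ES
open Pool.Agent.W353.NF (act fixn fixn_conj fixn_inv fixn_mul_ker ker_act_open act_trans cz abs_cz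
  TT size_fix vx fixn_le)
open Pool.Agent.W353.TP (HX)
open Pool.Agent.W353.PV (tF size_X syX syX_real)
open Pool.Agent.W353.EF (LFun)
open Pool.Agent.W353.EH (edgePoint)

section
variable {K : Type} [Field K] [NumberField K] {l : ℕ} {X : Set (MvPolynomial (Fin l) (𝓞 K))}
  {d i N : ℕ}

/-- the sizes over `F` -/
theorem var_F (hi : i ≤ 2 * d) {F : Type} [Field F] [NumberField F] [Algebra K F] (t : ℝ)
    (B : HeightOneSpectrum (𝓞 F) → ℂ[X]) (hB : Pool.Agent.W353.EH.IsEulerSystem X d i N t B)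
    (σ : HeightOneSpectrum (𝓞 K) → GK K) (hσ : ∀ v, IsFrob v (σ v)) :
    (∀ᶠ ε : ℝ in 𝓝[>] 0, LFun B (edgePoint i t + ε) ≠ 0) ∧
    Tendsto (fun ε : ℝ => ED K ε (fun v => tF X d i N K v * cz t v * fixn K F (σ v)) -
      Pool.Agent.W353.EH.size i t B ε) (𝓝[>] 0) (𝓝 0) := by
  obtain ⟨h1, h2⟩ := size_X hi B hB.1 t (by
    intro v
    rw [edge_eq]
    exact hB.2 v) (fun _ : Fin 0 => (1 : 𝓞 F))
  simp only [edge_eq] at h1 h2
  refine ⟨h1, ?_⟩
  have h3 := size_fix _ (syX_real X d i N) σ hσ h2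
  have h4 := sz_diff (T' := fun v => tF X d i N K v) (T := TT (syX X d i N)) (fun x => ?_) h3 ?_
  · refine h4.congr fun ε => ?_
    have e1 : (fun v => tF X d i N K v * ((fixn K F (σ v) : ℝ) * cz t v)) =
        fun v => tF X d i N K v * cz t v * fixn K F (σ v) := by
      funext v
      ring
    rw [e1]
    rfl
  · have e3 : TT (syX X d i N) x =
        ∑ _j ∈ ({()} : Finset Unit), (((tF X d i N K (vx x) : ℝ) : ℂ)).re := rfl
    rw [e3, Finset.sum_singleton, Complex.ofReal_re]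
  · refine Bd.mul (f := fun v => tF X d i N K v)
      (g := fun v => (fixn K F (σ v) : ℝ) * cz t v) ⟨N, fun v => abs_tr_le _ _ _⟩ ?_
    exact (bd_fixn σ).mul ⟨1, fun v => abs_cz _ _⟩

variable [MeasurableSpace (GK K)] [BorelSpace (GK K)] (μ : Measure (GK K)) [μ.IsHaarMeasure]
  [IsProbabilityMeasure μ]

/-- **The edge densities of a projective variety.** -/
theorem var_densities (hi : i ≤ 2 * d) {τ : ℕ → ℝ} (hτ0 : ∀ n, 0 ≤ τ n)
    (hτ : Function.Injective τ) {e : ℕ → ℝ} (he : Tendsto e atTop (𝓝[>] 0)) :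
    ∃ φ : ℕ → ℕ, StrictMono φ ∧ ∃ θ : ℕ → GK K → ℝ,
      (∀ k, Measurable (θ k) ∧ (∀ g, |θ k g| ≤ cst N (τ k)) ∧
        (∀ g h, θ k (h * g * h⁻¹) = θ k g) ∧ ∀ g, θ k g⁻¹ = θ k g) ∧
      (∀ (k : ℕ) (t : ℝ), |t| = τ k →
        (∀ (F : IntermediateField K (AlgebraicClosure K)) [NumberField F]
          (B : HeightOneSpectrum (𝓞 F) → ℂ[X]), Pool.Agent.W353.EH.IsEulerSystem X d i N t B →
          (∀ᶠ ε : ℝ in 𝓝[>] 0, LFun B (edgePoint i t + ε) ≠ 0) ∧
          Tendsto (fun j => Pool.Agent.W353.EH.size i t B (e (φ j)))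
            atTop (𝓝 (⨍ g in (F.fixingSubgroup : Set (GK K)), θ k g ∂μ))) ∧
        (∀ (n : ℕ) (χ : Representation ℂ (GK K) (Fin n → ℂ)), IsArtin χ →
          ∀ B : HeightOneSpectrum (𝓞 K) → ℂ[X], IsTwistedSystem X d i N χ t B →
          IsTwistedSystem X d i N χ (-t) B →
          ((∀ᶠ ε : ℝ in 𝓝[>] 0, LFun B (edgePoint i t + ε) ≠ 0) ∧
            ∀ᶠ ε : ℝ in 𝓝[>] 0, LFun B (edgePoint i (-t) + ε) ≠ 0) ∧
          Tendsto (fun j => (Pool.Agent.W353.EH.size i t B (e (φ j)) + Pool.Agent.W353.EH.size i (-t) B (e (φ j))) / 2)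
            atTop (𝓝 (∫ g, θ k g * (χ.character g).re ∂μ)))) ∧
      (∀ S : Finset ℕ, ∑ k ∈ S, wt (τ k) * ∫ g, θ k g ^ 2 ∂μ ≤ (N : ℝ) ^ 2) ∧
      ∀ (c : ℕ) (η : ℝ), 0 < η → ∃ M : IntermediateField K (AlgebraicClosure K),
        FiniteDimensional K M ∧ IsGalois K M ∧
        ∀ (k : ℕ) (F : IntermediateField K (AlgebraicClosure K)) [NumberField F],
          Module.finrank K F ≤ c →
            |(⨍ g in (F.fixingSubgroup : Set (GK K)), θ k g ∂μ) -
              ⨍ g in ((F ⊓ M : IntermediateField K (AlgebraicClosure K)).fixingSubgroup :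
                Set (GK K)), θ k g ∂μ| < η := by
  choose σ hσ using exists_isFrob (F := K)
  have hT : ∀ v, |tF X d i N K v| ≤ (N : ℝ) := fun v => abs_tr_le _ _ _
  obtain ⟨φ, hφ, θ, h1, h5, h6, h7⟩ := exists_densities μ (Nat.cast_nonneg N) hT hτ0 hτ σ hσ he
  have hz : Tendsto (fun j => e (φ j)) atTop (𝓝[>] 0) := he.comp hφ.tendsto_atTop
  refine ⟨φ, hφ, θ, h1, fun k t ht => ⟨fun F _ B hB => ?_, fun n χ hχ B hB hB' => ?_⟩,
    h6, h7⟩
  · obtain ⟨h2, h3, h4, -⟩ := h1 k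
    have h9 := var_F hi t B hB σ hσ
    refine ⟨h9.1, ?_⟩
    have h8 := (h5 k _ (ec_fixn F)).sub (h9.2.comp hz)
    rw [sub_zero, fix_avg μ F h2 h3 h4] at h8
    refine h8.congr fun j => ?_
    rw [Function.comp_apply]
    have e1 : (fun v => tF X d i N K v * cz t v * (fixn K F (σ v) : ℝ)) =
        fun v => tF X d i N K v * cz (τ k) v * fixn K F (σ v) := by
      funext v
      rw [cz_abs ht]
    rw [e1]
    ring
  · obtain ⟨U, hUn, hU, hx1⟩ := exists_common (κ := Unit) (n := fun _ => n)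
      (fun _ => χ) fun _ => hχ
    have hfin : Finite (GK K ⧸ U) := Subgroup.quotient_finite_of_isOpen U hU
    have h9 := tw_size hi U χ (hx1 ()) t B hB σ hσ
    have h10 := tw_size hi U χ (hx1 ()) (-t) B hB' σ hσ
    refine ⟨⟨h9.1, h10.1⟩, ?_⟩
    have h8 := pair_lim' hT χ hχ ht σ h9.2 h10.2
    have h11 := (h5 k _ (ec_char χ hχ)).sub (h8.comp hz)
    rw [sub_zero] at h11
    refine h11.congr fun j => ?_
    rw [Function.comp_apply]
    ring

end

end Pool.Agent.TH375.ED
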